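import Mathlib
import Pool.Agent.Helper23.Bose.Defs

set_option autoImplicit false
open MeasureTheory

namespace Pool.Agent.Helper92.Bose

open Pool.Agent.Helper23.Bose

/-- unnormalised profile -/
noncomputable def kap (x : E3) : ℝ := Real.exp (-Real.sqrt (1 + ‖x‖ ^ 2))

/-- its integral -/
noncomputable def kapI : ℝ := ∫ x, kap x

/-- the mollifier at scale `δ` -/
noncomputable def eta (δ : ℝ) (x : E3) : ℝ := (kapI * δ ^ 3)⁻¹ * kap (δ⁻¹ • x)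

/-- the mollified density -/
noncomputable def rho (δ : ℝ) (ν : Measure E3) (y : E3) : ℝ := ∫ x, eta δ (y - x) ∂ν

/-- `|∇ρ|²` -/
noncomputable def drho2 (δ : ℝ) (ν : Measure E3) (y : E3) : ℝ :=
  ∑ k : Fin 3, (fderiv ℝ (rho δ ν) y (ek k)) ^ 2

/-- the kinetic term `∫ |∇ρ|²/(4ρ)` -/
noncomputable def Tkin (δ : ℝ) (ν : Measure E3) : ℝ := ∫ y, drho2 δ ν y / (4 * rho δ ν y)

/-- the interaction term `∫ G(ρ)` -/
noncomputable def Gint (b1 b2 δ : ℝ) (ν : Measure E3) : ℝ :=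
  ∫ y, (b1 / 2 * rho δ ν y ^ 2 + b2 / 6 * rho δ ν y ^ 3)

/-- the properties of the one-particle density used in the macroscopic part -/
structure Marg (Vext : E3 → ℝ) (M0 : ℝ) (ν : Measure E3) : Prop where
  prob : IsProbabilityMeasure ν
  cpt : ∃ R : ℝ, ν (Metric.closedBall 0 R)ᶜ = 0
  vint : ∫ x, Vext x ∂ν ≤ M0
  transl : ∀ (h : E3 → ℝ) (B : ℝ), Measurable h → (∀ x, |h x| ≤ B) → ∀ z : E3,
    |(∫ x, h (x + z) ∂ν) - ∫ x, h x ∂ν| ≤ 2 * B * Real.sqrt M0 * ‖z‖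

/- M3a (to be proved in file Mac.lean):

theorem mac {Vext W : E3 → ℝ} {V : E3 × E3 → ℝ} (H : Hyp Vext W V) {b1 b2 : ℝ}
    (hb1 : 0 ≤ b1) (hb2 : 0 ≤ b2) (M0 : ℝ) {eps : ℝ} (heps : 0 < eps) :
    ∃ δ : ℝ, 0 < δ ∧ δ ≤ 1 ∧ ∀ ν : Measure E3, Marg Vext M0 ν →
      eGP Vext b1 b2 - eps ≤ Tkin δ ν + Gint b1 b2 δ ν + ∫ x, Vext x ∂ν

Facts on eta, rho that helper92 proves in file Eta.lean (may be used):

theorem kap_pos (x : E3) : 0 < kap x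
theorem eta_pos {δ : ℝ} (hδ : 0 < δ) (x : E3) : 0 < eta δ x
theorem eta_contDiff (δ : ℝ) : ContDiff ℝ cinf (eta δ)
theorem eta_neg (δ : ℝ) (x : E3) : eta δ (-x) = eta δ x
theorem eta_integrable {δ : ℝ} (hδ : 0 < δ) : Integrable (eta δ)
theorem eta_integral {δ : ℝ} (hδ : 0 < δ) : ∫ x, eta δ x = 1
theorem eta_norm_fderiv {δ : ℝ} (hδ : 0 < δ) (x : E3) : ‖fderiv ℝ (eta δ) x‖ ≤ eta δ x / δ
theorem eta_harnack {δ : ℝ} (hδ : 0 < δ) (x y : E3) : eta δ x ≤ Real.exp (‖x - y‖ / δ) * eta δ y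
/-- first moment -/
theorem eta_moment_integrable {δ : ℝ} (hδ : 0 < δ) : Integrable (fun x => ‖x‖ * eta δ x)
theorem eta_moment {δ : ℝ} (hδ : 0 < δ) : ∫ x, ‖x‖ * eta δ x = δ * momC     (momC := ∫ x, ‖x‖ * eta 1 x, momC_nonneg)
theorem rho_pos {δ : ℝ} (hδ : 0 < δ) (ν : Measure E3) [IsProbabilityMeasure ν] (y : E3) : 0 < rho δ ν y
theorem rho_contDiff {δ : ℝ} (hδ : 0 < δ) (ν : Measure E3) [IsProbabilityMeasure ν]
    (hR : ∃ R : ℝ, ν (Metric.closedBall 0 R)ᶜ = 0) : ContDiff ℝ cinf (rho δ ν)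
theorem rho_integrable, rho_integral : ∫ y, rho δ ν y = 1
theorem rho_le {δ : ℝ} (hδ : 0 < δ) (ν) [IsProbabilityMeasure ν] (y) : rho δ ν y ≤ (kapI * δ ^ 3)⁻¹
theorem rho_fderiv (hδ) (ν) [IsProbabilityMeasure ν] (y v : E3) : fderiv ℝ (rho δ ν) y v = ∫ x, fderiv ℝ (eta δ) (y - x) v ∂ν
theorem rho_norm_fderiv (hδ) (ν) [IsProbabilityMeasure ν] (y : E3) : ‖fderiv ℝ (rho δ ν) y‖ ≤ rho δ ν y / δ
-/

end Pool.Agent.Helper92.Bose
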