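import Mathlib
import Pool.Agent.Helper92.Bose.Iface

set_option autoImplicit false
open MeasureTheory

namespace Pool.Agent.Helper92.Bose

open Pool.Agent.Helper23.Bose

/-! ### the profile `kap` -/

theorem kap_pos (x : E3) : 0 < kap x := Real.exp_pos _

theorem kap_le_one (x : E3) : kap x ≤ 1 := by
  unfold kap
  rw [Real.exp_le_one_iff]
  have := Real.sqrt_nonneg (1 + ‖x‖ ^ 2)
  linarith

theorem kap_neg (x : E3) : kap (-x) = kap x := by simp [kap]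

theorem sqrt_arg_pos (x : E3) : 0 < 1 + ‖x‖ ^ 2 := by positivity

theorem kap_contDiff : ContDiff ℝ cinf kap := by
  unfold kap
  apply ContDiff.exp
  apply ContDiff.neg
  apply ContDiff.sqrt
  · exact contDiff_const.add (contDiff_norm_sq ℝ)
  · intro x
    exact (sqrt_arg_pos x).ne'

theorem norm_le_sqrt (x : E3) : ‖x‖ ≤ Real.sqrt (1 + ‖x‖ ^ 2) := by
  apply Real.le_sqrt_of_sq_le
  linarith

theorem sqrt_lip (x y : E3) :
    Real.sqrt (1 + ‖y‖ ^ 2) ≤ Real.sqrt (1 + ‖x‖ ^ 2) + ‖x - y‖ := by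
  have h0 := norm_nonneg (x - y)
  have hx := norm_le_sqrt x
  have hs := Real.sqrt_nonneg (1 + ‖x‖ ^ 2)
  have h1 : ‖y‖ ≤ ‖x‖ + ‖x - y‖ := by
    have : y = x - (x - y) := by abel
    calc ‖y‖ = ‖x - (x - y)‖ := by rw [← this]
      _ ≤ _ := norm_sub_le _ _
  rw [Real.sqrt_le_left (by positivity)]
  have h2 : Real.sqrt (1 + ‖x‖ ^ 2) ^ 2 = 1 + ‖x‖ ^ 2 := Real.sq_sqrt (sqrt_arg_pos x).le
  have h3 : ‖y‖ ^ 2 ≤ (‖x‖ + ‖x - y‖) ^ 2 := pow_le_pow_left₀ (norm_nonneg _) h1 2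
  nlinarith [mul_le_mul_of_nonneg_right hx h0]

theorem kap_harnack (x y : E3) : kap x ≤ Real.exp ‖x - y‖ * kap y := by
  unfold kap
  rw [← Real.exp_add, Real.exp_le_exp]
  have := sqrt_lip x y
  linarith

theorem kap_norm_fderiv (x : E3) : ‖fderiv ℝ kap x‖ ≤ kap x := by
  have h1 : HasFDerivAt (fun x : E3 => ‖x‖ ^ 2) (2 • (innerSL ℝ x)) x :=
    (hasStrictFDerivAt_norm_sq x).hasFDerivAt
  have h2 : HasFDerivAt (fun x : E3 => 1 + ‖x‖ ^ 2) (2 • (innerSL ℝ x)) x := h1.const_add 1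
  have h3 := (h2.sqrt (sqrt_arg_pos x).ne').neg.exp
  have h4 : fderiv ℝ kap x = _ := h3.fderiv
  rw [h4]
  have hs : 0 < Real.sqrt (1 + ‖x‖ ^ 2) := Real.sqrt_pos.2 (sqrt_arg_pos x)
  have e1 : Real.exp ((-fun y : E3 => Real.sqrt (1 + ‖y‖ ^ 2)) x) = kap x := rfl
  rw [norm_smul, norm_neg, norm_smul, Real.norm_eq_abs, Real.norm_eq_abs, e1,
    abs_of_pos (kap_pos x), abs_of_pos (by positivity)]
  have h5 : ‖(2 : ℕ) • (innerSL ℝ x)‖ ≤ 2 * ‖x‖ := by
    calc ‖(2 : ℕ) • (innerSL ℝ x)‖ ≤ 2 * ‖innerSL ℝ x‖ := by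
          rw [two_nsmul]
          calc _ ≤ ‖innerSL ℝ x‖ + ‖innerSL ℝ x‖ := norm_add_le _ _
            _ = _ := by ring
      _ = 2 * ‖x‖ := by rw [innerSL_apply_norm]
  have h6 : 1 / (2 * Real.sqrt (1 + ‖x‖ ^ 2)) * ‖(2 : ℕ) • (innerSL ℝ x)‖ ≤ 1 := by
    rw [one_div, inv_mul_le_iff₀ (by positivity)]
    have := norm_le_sqrt x
    linarith
  calc kap x * (1 / (2 * Real.sqrt (1 + ‖x‖ ^ 2)) * ‖(2 : ℕ) • (innerSL ℝ x)‖)
      ≤ kap x * 1 := mul_le_mul_of_nonneg_left h6 (kap_pos x).le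
    _ = kap x := mul_one _

theorem kap_decay (x : E3) : kap x ≤ 3840 * (1 + ‖x‖) ^ (-(5 : ℝ)) := by
  have hx := norm_nonneg x
  have h1 : (1 + ‖x‖) / 2 ≤ Real.sqrt (1 + ‖x‖ ^ 2) := by
    apply Real.le_sqrt_of_sq_le
    nlinarith [sq_nonneg (1 - ‖x‖)]
  have h2 : kap x ≤ Real.exp (-((1 + ‖x‖) / 2)) := by
    unfold kap
    rw [Real.exp_le_exp]
    linarith
  have h3 : ((1 + ‖x‖) / 2) ^ 5 / (Nat.factorial 5 : ℝ) ≤ Real.exp ((1 + ‖x‖) / 2) :=
    Real.pow_div_factorial_le_exp _ (by positivity) 5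
  refine h2.trans ?_
  rw [Real.exp_neg, Real.rpow_neg (by positivity)]
  have h4 : (1 + ‖x‖) ^ (5 : ℝ) = (1 + ‖x‖) ^ (5 : ℕ) := by
    rw [← Real.rpow_natCast]; norm_num
  rw [h4, inv_le_comm₀ (Real.exp_pos _) (by positivity), mul_inv, inv_inv]
  refine le_trans (le_of_eq ?_) h3
  norm_num [Nat.factorial]
  ring

theorem kap_moment_decay (x : E3) : ‖x‖ * kap x ≤ 3840 * (1 + ‖x‖) ^ (-(4 : ℝ)) := by
  have hx := norm_nonneg x
  have h1 := kap_decay x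
  have h2 : (1 + ‖x‖) ^ (-(4 : ℝ)) = (1 + ‖x‖) * (1 + ‖x‖) ^ (-(5 : ℝ)) := by
    rw [← Real.rpow_one_add' (by positivity) (by norm_num)]
    norm_num
  rw [h2]
  have h3 : 0 ≤ (1 + ‖x‖) ^ (-(5 : ℝ)) := by positivity
  have hk := (kap_pos x).le
  nlinarith [mul_le_mul_of_nonneg_left h1 hx]

theorem kap_integrable : Integrable kap := by
  have h : Integrable (fun x : E3 => 3840 * (1 + ‖x‖) ^ (-(5 : ℝ))) :=
    (integrable_one_add_norm (by simp; norm_num)).const_mul _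
  refine h.mono' kap_contDiff.continuous.aestronglyMeasurable ?_
  refine Filter.Eventually.of_forall fun x => ?_
  rw [Real.norm_eq_abs, abs_of_pos (kap_pos x)]
  exact kap_decay x

theorem kap_moment_integrable : Integrable (fun x : E3 => ‖x‖ * kap x) := by
  have h : Integrable (fun x : E3 => 3840 * (1 + ‖x‖) ^ (-(4 : ℝ))) :=
    (integrable_one_add_norm (by simp; norm_num)).const_mul _
  refine h.mono' (continuous_norm.mul kap_contDiff.continuous).aestronglyMeasurable ?_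
  refine Filter.Eventually.of_forall fun x => ?_
  rw [Real.norm_eq_abs, abs_of_nonneg (mul_nonneg (norm_nonneg _) (kap_pos x).le)]
  exact kap_moment_decay x

theorem kapI_pos : 0 < kapI := by
  unfold kapI
  rw [integral_pos_iff_support_of_nonneg (fun x => (kap_pos x).le) kap_integrable]
  have : Function.support kap = Set.univ := by
    ext x
    simp [(kap_pos x).ne']
  rw [this]
  simp

/-! ### the mollifier `eta` -/

theorem eta_pos {δ : ℝ} (hδ : 0 < δ) (x : E3) : 0 < eta δ x := by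
  unfold eta
  have := kapI_pos
  have := kap_pos (δ⁻¹ • x)
  positivity

theorem eta_neg (δ : ℝ) (x : E3) : eta δ (-x) = eta δ x := by
  unfold eta
  rw [smul_neg, kap_neg]

theorem eta_contDiff (δ : ℝ) : ContDiff ℝ cinf (eta δ) := by
  unfold eta
  exact contDiff_const.mul (kap_contDiff.comp (contDiff_const_smul _))

theorem eta_continuous (δ : ℝ) : Continuous (eta δ) := (eta_contDiff δ).continuous

theorem eta_le {δ : ℝ} (hδ : 0 < δ) (x : E3) : eta δ x ≤ (kapI * δ ^ 3)⁻¹ := by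
  unfold eta
  have h1 := kapI_pos
  have h2 := kap_le_one (δ⁻¹ • x)
  calc (kapI * δ ^ 3)⁻¹ * kap (δ⁻¹ • x) ≤ (kapI * δ ^ 3)⁻¹ * 1 :=
        mul_le_mul_of_nonneg_left h2 (by positivity)
    _ = _ := mul_one _

theorem eta_integrable {δ : ℝ} (hδ : 0 < δ) : Integrable (eta δ) := by
  unfold eta
  exact (kap_integrable.comp_smul (inv_ne_zero hδ.ne')).const_mul _

theorem eta_integral {δ : ℝ} (hδ : 0 < δ) : ∫ x, eta δ x = 1 := by
  unfold eta
  rw [integral_const_mul, Measure.integral_comp_smul]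
  have h1 := kapI_pos
  have h2 : ∫ x : E3, kap x = kapI := rfl
  rw [h2]
  simp only [finrank_euclideanSpace, Fintype.card_fin, smul_eq_mul]
  rw [inv_pow, inv_inv, abs_of_pos (by positivity)]
  field_simp

/-- the first moment of the profile -/
noncomputable def momC : ℝ := kapI⁻¹ * ∫ x : E3, ‖x‖ * kap x

theorem momC_nonneg : 0 ≤ momC := by
  unfold momC
  have h1 := kapI_pos
  have : 0 ≤ ∫ x : E3, ‖x‖ * kap x :=
    integral_nonneg fun x => mul_nonneg (norm_nonneg _) (kap_pos x).le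
  positivity

theorem eta_moment_eq {δ : ℝ} (hδ : 0 < δ) (x : E3) :
    ‖x‖ * eta δ x = (kapI * δ ^ 2)⁻¹ * (‖δ⁻¹ • x‖ * kap (δ⁻¹ • x)) := by
  unfold eta
  have h1 := kapI_pos
  rw [norm_smul, norm_inv, Real.norm_eq_abs, abs_of_pos hδ]
  field_simp

theorem eta_moment_integrable {δ : ℝ} (hδ : 0 < δ) : Integrable (fun x : E3 => ‖x‖ * eta δ x) := by
  simp_rw [eta_moment_eq hδ]
  exact (kap_moment_integrable.comp_smul (inv_ne_zero hδ.ne')).const_mul _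

theorem eta_moment {δ : ℝ} (hδ : 0 < δ) : ∫ x : E3, ‖x‖ * eta δ x = δ * momC := by
  simp_rw [eta_moment_eq hδ]
  rw [integral_const_mul, Measure.integral_comp_smul (μ := volume) (fun x : E3 => ‖x‖ * kap x)]
  have h1 := kapI_pos
  unfold momC
  simp only [finrank_euclideanSpace, Fintype.card_fin, smul_eq_mul]
  rw [inv_pow, inv_inv, abs_of_pos (by positivity)]
  field_simp

theorem eta_norm_fderiv {δ : ℝ} (hδ : 0 < δ) (x : E3) : ‖fderiv ℝ (eta δ) x‖ ≤ eta δ x / δ := by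
  have h1 := kapI_pos
  have hk : DifferentiableAt ℝ kap (δ⁻¹ • x) :=
    (kap_contDiff.differentiable (by simp)) _
  have h2 : HasFDerivAt (fun x : E3 => kap (δ⁻¹ • x))
      ((fderiv ℝ kap (δ⁻¹ • x)).comp (δ⁻¹ • ContinuousLinearMap.id ℝ E3)) x :=
    hk.hasFDerivAt.comp x ((δ⁻¹ • ContinuousLinearMap.id ℝ E3).hasFDerivAt)
  have h3 : fderiv ℝ (eta δ) x = _ := (h2.const_mul ((kapI * δ ^ 3)⁻¹)).fderiv
  rw [h3, norm_smul, Real.norm_eq_abs, abs_of_pos (by positivity)]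
  have h4 : ‖(fderiv ℝ kap (δ⁻¹ • x)).comp (δ⁻¹ • ContinuousLinearMap.id ℝ E3)‖
      ≤ kap (δ⁻¹ • x) * δ⁻¹ := by
    refine (ContinuousLinearMap.opNorm_comp_le _ _).trans ?_
    refine mul_le_mul (kap_norm_fderiv _) ?_ (norm_nonneg _) (kap_pos _).le
    rw [norm_smul, norm_inv, Real.norm_eq_abs, abs_of_pos hδ]
    calc δ⁻¹ * ‖ContinuousLinearMap.id ℝ E3‖ ≤ δ⁻¹ * 1 :=
          mul_le_mul_of_nonneg_left ContinuousLinearMap.norm_id_le (by positivity)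
      _ = _ := mul_one _
  unfold eta
  calc (kapI * δ ^ 3)⁻¹ * ‖(fderiv ℝ kap (δ⁻¹ • x)).comp (δ⁻¹ • ContinuousLinearMap.id ℝ E3)‖
      ≤ (kapI * δ ^ 3)⁻¹ * (kap (δ⁻¹ • x) * δ⁻¹) := mul_le_mul_of_nonneg_left h4 (by positivity)
    _ = _ := by rw [div_eq_mul_inv]; ring

theorem eta_harnack {δ : ℝ} (hδ : 0 < δ) (x y : E3) :
    eta δ x ≤ Real.exp (‖x - y‖ / δ) * eta δ y := by
  have h1 := kapI_pos
  unfold eta
  have h2 := kap_harnack (δ⁻¹ • x) (δ⁻¹ • y)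
  rw [← smul_sub, norm_smul, norm_inv, Real.norm_eq_abs, abs_of_pos hδ] at h2
  rw [show ‖x - y‖ / δ = δ⁻¹ * ‖x - y‖ by field_simp]
  calc (kapI * δ ^ 3)⁻¹ * kap (δ⁻¹ • x)
      ≤ (kapI * δ ^ 3)⁻¹ * (Real.exp (δ⁻¹ * ‖x - y‖) * kap (δ⁻¹ • y)) :=
        mul_le_mul_of_nonneg_left h2 (by positivity)
    _ = _ := by ring

theorem eta_abs_fderiv {δ : ℝ} (hδ : 0 < δ) (x v : E3) :
    |fderiv ℝ (eta δ) x v| ≤ eta δ x / δ * ‖v‖ := by
  rw [← Real.norm_eq_abs]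
  exact (ContinuousLinearMap.le_opNorm _ _).trans
    (mul_le_mul_of_nonneg_right (eta_norm_fderiv hδ x) (norm_nonneg _))

theorem eta_fderiv_neg (δ : ℝ) (x v : E3) : fderiv ℝ (eta δ) (-x) v = - fderiv ℝ (eta δ) x v := by
  have h1 : (fun x : E3 => eta δ (-x)) = eta δ := by
    ext x; exact eta_neg δ x
  have hd : DifferentiableAt ℝ (eta δ) (-x) := ((eta_contDiff δ).differentiable (by simp)) _
  have h2 : HasFDerivAt (fun x : E3 => eta δ (-x))
      ((fderiv ℝ (eta δ) (-x)).comp (-ContinuousLinearMap.id ℝ E3)) x :=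
    hd.hasFDerivAt.comp x ((-ContinuousLinearMap.id ℝ E3).hasFDerivAt)
  rw [h1] at h2
  rw [h2.fderiv]
  simp

end Pool.Agent.Helper92.Bose
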