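import Mathlib
import Pool.Agent.Helper92.Bose.Eta

set_option autoImplicit false
open MeasureTheory

namespace Pool.Agent.Helper92.Bose

open Pool.Agent.Helper23.Bose

variable {δ : ℝ} {ν : Measure E3}

theorem eta_sub_integrable (hδ : 0 < δ) (ν : Measure E3) [IsProbabilityMeasure ν] (y : E3) :
    Integrable (fun x => eta δ (y - x)) ν := by
  refine Integrable.mono' (integrable_const ((kapI * δ ^ 3)⁻¹))
    (((eta_continuous δ).comp (continuous_const.sub continuous_id)).aestronglyMeasurable) ?_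
  refine Filter.Eventually.of_forall fun x => ?_
  rw [Real.norm_eq_abs]
  rw [abs_of_pos (eta_pos hδ _)]
  exact eta_le hδ _

theorem rho_pos (hδ : 0 < δ) (ν : Measure E3) [IsProbabilityMeasure ν] (y : E3) :
    0 < rho δ ν y := by
  unfold rho
  rw [integral_pos_iff_support_of_nonneg (fun x => (eta_pos hδ _).le) (eta_sub_integrable hδ ν y)]
  have : Function.support (fun x => eta δ (y - x)) = Set.univ := by
    ext x
    simp [(eta_pos hδ (y - x)).ne']
  rw [this]
  simp

theorem rho_le (hδ : 0 < δ) (ν : Measure E3) [IsProbabilityMeasure ν] (y : E3) :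
    rho δ ν y ≤ (kapI * δ ^ 3)⁻¹ := by
  unfold rho
  calc ∫ x, eta δ (y - x) ∂ν ≤ ∫ _x, (kapI * δ ^ 3)⁻¹ ∂ν :=
        integral_mono (eta_sub_integrable hδ ν y) (integrable_const _) fun x => eta_le hδ _
    _ = (kapI * δ ^ 3)⁻¹ := by simp

theorem eta_fderiv_continuous (δ : ℝ) : Continuous (fderiv ℝ (eta δ)) :=
  (eta_contDiff δ).continuous_fderiv (by simp)

theorem rho_hasFDerivAt (hδ : 0 < δ) (ν : Measure E3) [IsProbabilityMeasure ν] (y : E3) :
    Integrable (fun x => fderiv ℝ (eta δ) (y - x)) ν ∧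
    HasFDerivAt (rho δ ν) (∫ x, fderiv ℝ (eta δ) (y - x) ∂ν) y := by
  have hb : ∀ z : E3, ‖fderiv ℝ (eta δ) z‖ ≤ (kapI * δ ^ 3)⁻¹ / δ := fun z =>
    (eta_norm_fderiv hδ z).trans (div_le_div_of_nonneg_right (eta_le hδ z) hδ.le)
  have hm : ∀ y : E3, AEStronglyMeasurable (fun x => fderiv ℝ (eta δ) (y - x)) ν := fun y =>
    ((eta_fderiv_continuous δ).comp (continuous_const.sub continuous_id)).aestronglyMeasurable
  refine ⟨?_, ?_⟩
  · refine Integrable.mono' (integrable_const ((kapI * δ ^ 3)⁻¹ / δ)) (hm y) ?_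
    exact Filter.Eventually.of_forall fun x => hb _
  · unfold rho
    refine hasFDerivAt_integral_of_dominated_of_fderiv_le (s := Set.univ)
      (bound := fun _ => (kapI * δ ^ 3)⁻¹ / δ) (F := fun y x => eta δ (y - x))
      (F' := fun y x => fderiv ℝ (eta δ) (y - x)) Filter.univ_mem
      ?_ (eta_sub_integrable hδ ν y) (hm y) ?_ (integrable_const _) ?_
    · exact Filter.Eventually.of_forall fun y => (eta_sub_integrable hδ ν y).aestronglyMeasurable
    · exact Filter.Eventually.of_forall fun x y _ => hb _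
    · refine Filter.Eventually.of_forall fun x y _ => ?_
      have hd : DifferentiableAt ℝ (eta δ) (y - x) := ((eta_contDiff δ).differentiable (by simp)) _
      have := hd.hasFDerivAt.comp y ((hasFDerivAt_id y).sub_const x)
      simpa using! this

theorem rho_fderiv (hδ : 0 < δ) (ν : Measure E3) [IsProbabilityMeasure ν] (y v : E3) :
    fderiv ℝ (rho δ ν) y v = ∫ x, fderiv ℝ (eta δ) (y - x) v ∂ν := by
  obtain ⟨h1, h2⟩ := rho_hasFDerivAt hδ ν y
  rw [h2.fderiv, ContinuousLinearMap.integral_apply h1]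

theorem rho_norm_fderiv (hδ : 0 < δ) (ν : Measure E3) [IsProbabilityMeasure ν] (y : E3) :
    ‖fderiv ℝ (rho δ ν) y‖ ≤ rho δ ν y / δ := by
  obtain ⟨h1, h2⟩ := rho_hasFDerivAt hδ ν y
  rw [h2.fderiv]
  calc ‖∫ x, fderiv ℝ (eta δ) (y - x) ∂ν‖ ≤ ∫ x, ‖fderiv ℝ (eta δ) (y - x)‖ ∂ν :=
        norm_integral_le_integral_norm _
    _ ≤ ∫ x, eta δ (y - x) / δ ∂ν :=
        integral_mono h1.norm ((eta_sub_integrable hδ ν y).div_const _)
          fun x => eta_norm_fderiv hδ _
    _ = rho δ ν y / δ := by rw [integral_div]; rfl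

theorem rho_abs_fderiv (hδ : 0 < δ) (ν : Measure E3) [IsProbabilityMeasure ν] (y v : E3) :
    |fderiv ℝ (rho δ ν) y v| ≤ rho δ ν y / δ * ‖v‖ := by
  rw [← Real.norm_eq_abs]
  exact (ContinuousLinearMap.le_opNorm _ _).trans
    (mul_le_mul_of_nonneg_right (rho_norm_fderiv hδ ν y) (norm_nonneg _))

theorem rho_contDiff (hδ : 0 < δ) (ν : Measure E3) [IsProbabilityMeasure ν]
    (hR : ∃ R : ℝ, ν (Metric.closedBall 0 R)ᶜ = 0) : ContDiff ℝ cinf (rho δ ν) := by
  obtain ⟨R, hR⟩ := hR
  rw [contDiff_iff_contDiffAt]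
  intro y0
  -- cut-off
  have hpos : 0 < ‖y0‖ + |R| + 1 := by positivity
  let χ : ContDiffBump (0 : E3) := ⟨‖y0‖ + |R| + 1, ‖y0‖ + |R| + 2, hpos, by linarith⟩
  have hχs : ContDiff ℝ cinf (χ : E3 → ℝ) := χ.contDiff
  set g : E3 → ℝ := fun z => χ z * eta δ z with hg
  have hgs : ContDiff ℝ cinf g := hχs.mul (eta_contDiff δ)
  have hgc : HasCompactSupport g := χ.hasCompactSupport.mul_right
  have hli : LocallyIntegrable (fun _ : E3 => (1 : ℝ)) ν := locallyIntegrable_const 1
  have hconv := hgc.contDiff_convolution_right (ContinuousLinearMap.mul ℝ ℝ) hli hgs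
  refine hconv.contDiffAt.congr_of_eventuallyEq ?_
  have hball : Metric.ball y0 1 ∈ nhds y0 := Metric.ball_mem_nhds _ one_pos
  filter_upwards [hball] with y hy
  unfold rho
  rw [convolution_def]
  have hae : ∀ᵐ x ∂ν, x ∈ Metric.closedBall (0 : E3) R := by
    rw [ae_iff]
    exact hR
  refine integral_congr_ae ?_
  filter_upwards [hae] with x hx
  have h1 : χ (y - x) = 1 := by
    apply χ.one_of_mem_closedBall
    rw [mem_closedBall_zero_iff]
    rw [mem_closedBall_zero_iff] at hx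
    have h2 : ‖y - y0‖ < 1 := by rw [← dist_eq_norm]; exact hy
    have h3 : ‖y‖ ≤ ‖y0‖ + 1 := by
      have : y = y0 + (y - y0) := by abel
      calc ‖y‖ = ‖y0 + (y - y0)‖ := by rw [← this]
        _ ≤ ‖y0‖ + ‖y - y0‖ := norm_add_le _ _
        _ ≤ _ := by linarith
    have h4 : ‖y - x‖ ≤ ‖y‖ + ‖x‖ := norm_sub_le _ _
    have h5 : R ≤ |R| := le_abs_self R
    change ‖y - x‖ ≤ ‖y0‖ + |R| + 1
    linarith
  simp [hg, h1]

/-- product integrability of translated integrable functions -/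
theorem prod_integrable {F : Type*} [NormedAddCommGroup F] {g : E3 → F} (hg : Integrable g)
    (hc : Continuous g) (ν : Measure E3) [IsProbabilityMeasure ν] :
    Integrable (fun p : E3 × E3 => g (p.1 - p.2)) (volume.prod ν) := by
  have hm : AEStronglyMeasurable (fun p : E3 × E3 => g (p.1 - p.2)) (volume.prod ν) :=
    (hc.comp (continuous_fst.sub continuous_snd)).aestronglyMeasurable
  rw [integrable_prod_iff' hm]
  refine ⟨Filter.Eventually.of_forall fun y => hg.comp_sub_right y, ?_⟩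
  have : (fun y : E3 => ∫ x, ‖g (x - y)‖) = fun _ => ∫ x, ‖g x‖ := by
    ext y
    exact integral_sub_right_eq_self (fun x => ‖g x‖) y
  simp only
  rw [this]
  exact integrable_const _

theorem rho_integrable (hδ : 0 < δ) (ν : Measure E3) [IsProbabilityMeasure ν] :
    Integrable (rho δ ν) :=
  (prod_integrable (eta_integrable hδ) (eta_continuous δ) ν).integral_prod_left

theorem rho_integral (hδ : 0 < δ) (ν : Measure E3) [IsProbabilityMeasure ν] :
    ∫ y, rho δ ν y = 1 := by
  unfold rho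
  rw [integral_integral_swap (prod_integrable (eta_integrable hδ) (eta_continuous δ) ν)]
  have : (fun x : E3 => ∫ y, eta δ (y - x)) = fun _ => (1 : ℝ) := by
    ext x
    rw [integral_sub_right_eq_self (fun y => eta δ y) x, eta_integral hδ]
  rw [this]
  simp

theorem rho_continuous (hδ : 0 < δ) (ν : Measure E3) [IsProbabilityMeasure ν] :
    Continuous (rho δ ν) := by
  have : Differentiable ℝ (rho δ ν) := fun y => (rho_hasFDerivAt hδ ν y).2.differentiableAt
  exact this.continuous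

/-- continuity of the derivative of `rho` -/
theorem rho_fderiv_continuous (hδ : 0 < δ) (ν : Measure E3) [IsProbabilityMeasure ν]
    (hR : ∃ R : ℝ, ν (Metric.closedBall 0 R)ᶜ = 0) : Continuous (fderiv ℝ (rho δ ν)) :=
  (rho_contDiff hδ ν hR).continuous_fderiv (by simp)

theorem drho2_le (hδ : 0 < δ) (ν : Measure E3) [IsProbabilityMeasure ν] (y : E3) :
    drho2 δ ν y ≤ 3 * (rho δ ν y / δ) ^ 2 := by
  unfold drho2
  calc ∑ k : Fin 3, (fderiv ℝ (rho δ ν) y (ek k)) ^ 2 ≤ ∑ _k : Fin 3, (rho δ ν y / δ) ^ 2 := by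
        refine Finset.sum_le_sum fun k _ => ?_
        have h := rho_abs_fderiv hδ ν y (ek k)
        rw [show ‖ek k‖ = 1 by simp [ek]] at h
        rw [mul_one] at h
        rw [← sq_abs (fderiv ℝ (rho δ ν) y (ek k))]
        exact pow_le_pow_left₀ (abs_nonneg _) h 2
    _ = 3 * (rho δ ν y / δ) ^ 2 := by simp

theorem drho2_nonneg (δ : ℝ) (ν : Measure E3) (y : E3) : 0 ≤ drho2 δ ν y :=
  Finset.sum_nonneg fun _ _ => sq_nonneg _

/-- continuity of `drho2` -/
theorem drho2_continuous (hδ : 0 < δ) (ν : Measure E3) [IsProbabilityMeasure ν]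
    (hR : ∃ R : ℝ, ν (Metric.closedBall 0 R)ᶜ = 0) : Continuous (drho2 δ ν) := by
  unfold drho2
  exact continuous_finsetSum _ fun k _ =>
    ((rho_fderiv_continuous hδ ν hR).clm_apply continuous_const).pow 2

theorem Tkin_integrable (hδ : 0 < δ) (ν : Measure E3) [IsProbabilityMeasure ν]
    (hR : ∃ R : ℝ, ν (Metric.closedBall 0 R)ᶜ = 0) :
    Integrable (fun y => drho2 δ ν y / (4 * rho δ ν y)) := by
  have hc : Continuous (fun y => drho2 δ ν y / (4 * rho δ ν y)) :=
    (drho2_continuous hδ ν hR).div (continuous_const.mul (rho_continuous hδ ν))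
      fun y => (mul_pos four_pos (rho_pos hδ ν y)).ne'
  refine Integrable.mono' ((rho_integrable hδ ν).const_mul (3 / (4 * δ ^ 2)))
    hc.aestronglyMeasurable ?_
  refine Filter.Eventually.of_forall fun y => ?_
  have hr := rho_pos hδ ν y
  have h1 := drho2_le hδ ν y
  have h0 := drho2_nonneg δ ν y
  rw [Real.norm_eq_abs, abs_of_nonneg (by positivity), div_le_iff₀ (by positivity)]
  refine h1.trans (le_of_eq ?_)
  field_simp

theorem rho_pow_integrable (hδ : 0 < δ) (ν : Measure E3) [IsProbabilityMeasure ν] (n : ℕ) :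
    Integrable (fun y => rho δ ν y ^ (n + 1)) := by
  have hc : Continuous (fun y => rho δ ν y ^ (n + 1)) := (rho_continuous hδ ν).pow _
  refine Integrable.mono' ((rho_integrable hδ ν).const_mul (((kapI * δ ^ 3)⁻¹) ^ n))
    hc.aestronglyMeasurable ?_
  refine Filter.Eventually.of_forall fun y => ?_
  have hr := rho_pos hδ ν y
  rw [Real.norm_eq_abs, abs_of_nonneg (by positivity), pow_succ]
  exact mul_le_mul_of_nonneg_right (pow_le_pow_left₀ hr.le (rho_le hδ ν y) n) hr.le

end Pool.Agent.Helper92.Bose
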