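import Mathlib
import Pool.Agent.Helper92.Bose.Rho

set_option autoImplicit false
open MeasureTheory

namespace Pool.Agent.Helper92.Bose

open Pool.Agent.Helper23.Bose

variable {δ : ℝ} {ν : Measure E3}

/-- smoothing operator `f ↦ f * η_δ` -/
noncomputable def Sm (δ : ℝ) (f : E3 → ℝ) (x : E3) : ℝ := ∫ y, f y * eta δ (x - y)

theorem eta_left_integrable (hδ : 0 < δ) (x : E3) : Integrable (fun y => eta δ (x - y)) :=
  (eta_integrable hδ).comp_sub_left x

theorem eta_left_integral (hδ : 0 < δ) (x : E3) : ∫ y, eta δ (x - y) = 1 := by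
  rw [integral_sub_left_eq_self (fun y => eta δ y) volume x, eta_integral hδ]

theorem sm_integrable (hδ : 0 < δ) {f : E3 → ℝ} (hf : Continuous f) {B : ℝ}
    (hB : ∀ y, |f y| ≤ B) (x : E3) : Integrable (fun y => f y * eta δ (x - y)) := by
  refine Integrable.bdd_mul (c := B) (eta_left_integrable hδ x) hf.aestronglyMeasurable ?_
  exact Filter.Eventually.of_forall fun y => by rw [Real.norm_eq_abs]; exact hB y

theorem sm_continuous (hδ : 0 < δ) {f : E3 → ℝ} (hf : Continuous f) {B : ℝ}
    (hB : ∀ y, |f y| ≤ B) : Continuous (Sm δ f) := by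
  have h1 : Sm δ f = convolution (eta δ) f (ContinuousLinearMap.mul ℝ ℝ) volume := by
    ext x
    rw [convolution_def]
    unfold Sm
    rw [← integral_sub_left_eq_self (fun y => f y * eta δ (x - y)) volume x]
    refine integral_congr_ae (Filter.Eventually.of_forall fun t => ?_)
    simp [mul_comm]
  rw [h1]
  refine BddAbove.continuous_convolution_right_of_integrable _ ?_ (eta_integrable hδ) hf
  refine ⟨B, ?_⟩
  rintro _ ⟨x, rfl⟩
  simpa [Real.norm_eq_abs] using hB x

theorem sm_abs_le (hδ : 0 < δ) {f : E3 → ℝ} (hf : Continuous f) {B : ℝ}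
    (hB : ∀ y, |f y| ≤ B) (x : E3) : |Sm δ f x| ≤ B := by
  unfold Sm
  calc |∫ y, f y * eta δ (x - y)| ≤ ∫ y, |f y * eta δ (x - y)| := abs_integral_le_integral_abs
    _ ≤ ∫ y, B * eta δ (x - y) := by
        refine integral_mono (sm_integrable hδ hf hB x).abs
          ((eta_left_integrable hδ x).const_mul B) fun y => ?_
        simp only
        rw [abs_mul, abs_of_pos (eta_pos hδ _)]
        exact mul_le_mul_of_nonneg_right (hB y) (eta_pos hδ _).le
    _ = B := by rw [integral_const_mul, eta_left_integral hδ, mul_one]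

theorem sm_nonneg (hδ : 0 < δ) {f : E3 → ℝ} (hf : ∀ y, 0 ≤ f y) (x : E3) : 0 ≤ Sm δ f x :=
  integral_nonneg fun y => mul_nonneg (hf y) (eta_pos hδ _).le

theorem sm_prod_integrable (hδ : 0 < δ) {f : E3 → ℝ} (hf : Continuous f) (hfi : Integrable f) :
    Integrable (fun p : E3 × E3 => f p.2 * eta δ (p.1 - p.2)) (volume.prod volume) := by
  have hm : AEStronglyMeasurable (fun p : E3 × E3 => f p.2 * eta δ (p.1 - p.2))
      (volume.prod volume) :=
    ((hf.comp continuous_snd).mul
      ((eta_continuous δ).comp (continuous_fst.sub continuous_snd))).aestronglyMeasurable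
  rw [integrable_prod_iff' hm]
  refine ⟨Filter.Eventually.of_forall fun y => ?_, ?_⟩
  · simp only
    exact ((eta_integrable hδ).comp_sub_right y).const_mul _
  have : (fun y : E3 => ∫ x, ‖f y * eta δ (x - y)‖) = fun y => ‖f y‖ := by
    ext y
    simp_rw [norm_mul]
    rw [integral_const_mul, integral_sub_right_eq_self (fun x => ‖eta δ x‖) y]
    have : (fun x => ‖eta δ x‖) = eta δ := by
      ext x
      rw [Real.norm_eq_abs, abs_of_pos (eta_pos hδ _)]
    rw [this, eta_integral hδ, mul_one]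
  simp only
  rw [this]
  exact hfi.norm

theorem sm_int (hδ : 0 < δ) {f : E3 → ℝ} (hf : Continuous f) (hfi : Integrable f) :
    Integrable (Sm δ f) :=
  (sm_prod_integrable hδ hf hfi).integral_prod_left

theorem sm_integral (hδ : 0 < δ) {f : E3 → ℝ} (hf : Continuous f) (hfi : Integrable f) :
    ∫ x, Sm δ f x = ∫ x, f x := by
  unfold Sm
  rw [integral_integral_swap (sm_prod_integrable hδ hf hfi)]
  refine integral_congr_ae (Filter.Eventually.of_forall fun y => ?_)
  simp only
  rw [integral_const_mul, integral_sub_right_eq_self (fun x => eta δ x) y, eta_integral hδ, mul_one]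

theorem sm_prod_integrable_nu (hδ : 0 < δ) {f : E3 → ℝ} (hf : Continuous f) {B : ℝ}
    (hB : ∀ y, |f y| ≤ B) (ν : Measure E3) [IsProbabilityMeasure ν] :
    Integrable (fun p : E3 × E3 => f p.2 * eta δ (p.1 - p.2)) (ν.prod volume) := by
  have hm : AEStronglyMeasurable (fun p : E3 × E3 => f p.2 * eta δ (p.1 - p.2))
      (ν.prod volume) :=
    ((hf.comp continuous_snd).mul
      ((eta_continuous δ).comp (continuous_fst.sub continuous_snd))).aestronglyMeasurable
  rw [integrable_prod_iff hm]
  refine ⟨Filter.Eventually.of_forall fun x => sm_integrable hδ hf hB x, ?_⟩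
  have hB0 : 0 ≤ B := (abs_nonneg _).trans (hB 0)
  refine Integrable.mono' (integrable_const B) ?_ (Filter.Eventually.of_forall fun x => ?_)
  · exact hm.norm.integral_prod_right'
  · simp only
    rw [Real.norm_eq_abs, abs_of_nonneg (integral_nonneg fun _ => norm_nonneg _)]
    calc ∫ y, ‖f y * eta δ (x - y)‖ ≤ ∫ y, B * eta δ (x - y) := by
          refine integral_mono (sm_integrable hδ hf hB x).norm
            ((eta_left_integrable hδ x).const_mul B) fun y => ?_
          simp only
          rw [norm_mul, Real.norm_eq_abs, Real.norm_eq_abs, abs_of_pos (eta_pos hδ _)]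
          exact mul_le_mul_of_nonneg_right (hB y) (eta_pos hδ _).le
      _ = B := by rw [integral_const_mul, eta_left_integral hδ, mul_one]

/-- `∫ (f * η) dν = ∫ f ρ` -/
theorem sm_integral_nu (hδ : 0 < δ) {f : E3 → ℝ} (hf : Continuous f) {B : ℝ}
    (hB : ∀ y, |f y| ≤ B) (ν : Measure E3) [IsProbabilityMeasure ν] :
    ∫ x, Sm δ f x ∂ν = ∫ y, f y * rho δ ν y := by
  unfold Sm
  rw [integral_integral_swap (sm_prod_integrable_nu hδ hf hB ν)]
  refine integral_congr_ae (Filter.Eventually.of_forall fun y => ?_)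
  simp only
  rw [integral_const_mul]
  unfold rho
  congr 1
  refine integral_congr_ae (Filter.Eventually.of_forall fun x => ?_)
  simp only
  rw [← eta_neg, neg_sub]

theorem sm_harnack (hδ : 0 < δ) {f : E3 → ℝ} (hf : Continuous f) {B : ℝ}
    (hB : ∀ y, |f y| ≤ B) (hf0 : ∀ y, 0 ≤ f y) (x z : E3) :
    Sm δ f x ≤ Real.exp (‖x - z‖ / δ) * Sm δ f z := by
  unfold Sm
  rw [← integral_const_mul]
  refine integral_mono (sm_integrable hδ hf hB x)
    ((sm_integrable hδ hf hB z).const_mul _) fun y => ?_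
  simp only
  have h1 := eta_harnack hδ (x - y) (z - y)
  rw [sub_sub_sub_cancel_right] at h1
  calc f y * eta δ (x - y) ≤ f y * (Real.exp (‖x - z‖ / δ) * eta δ (z - y)) :=
        mul_le_mul_of_nonneg_left h1 (hf0 y)
    _ = _ := by ring

/-- Jensen -/
theorem sm_sq_le (hδ : 0 < δ) {f : E3 → ℝ} (hf : Continuous f) {B : ℝ}
    (hB : ∀ y, |f y| ≤ B) (x : E3) : (Sm δ f x) ^ 2 ≤ Sm δ (fun y => f y ^ 2) x := by
  have hB2 : ∀ y, |f y ^ 2| ≤ B ^ 2 := fun y => by
    rw [abs_pow]
    exact pow_le_pow_left₀ (abs_nonneg _) (hB y) 2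
  have i1 := sm_integrable hδ hf hB x
  have i2 : Integrable (fun y => f y ^ 2 * eta δ (x - y)) := sm_integrable hδ (hf.pow 2) hB2 x
  set m := Sm δ f x with hm
  have h0 : 0 ≤ ∫ y, (f y - m) ^ 2 * eta δ (x - y) :=
    integral_nonneg fun y => mul_nonneg (sq_nonneg _) (eta_pos hδ _).le
  have h1 : ∫ y, (f y - m) ^ 2 * eta δ (x - y) = Sm δ (fun y => f y ^ 2) x - 2 * m * m + m ^ 2 := by
    have e : ∀ y, (f y - m) ^ 2 * eta δ (x - y) =
        (f y ^ 2 * eta δ (x - y) - 2 * m * (f y * eta δ (x - y))) + m ^ 2 * eta δ (x - y) := by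
      intro y; ring
    simp_rw [e]
    have j0 : Integrable (fun y => 2 * m * (f y * eta δ (x - y))) := i1.const_mul _
    have j1 : Integrable (fun y => f y ^ 2 * eta δ (x - y) - 2 * m * (f y * eta δ (x - y))) :=
      i2.sub j0
    have j2 : Integrable (fun y => m ^ 2 * eta δ (x - y)) :=
      (eta_left_integrable hδ x).const_mul _
    rw [integral_add j1 j2, integral_sub i2 j0, integral_const_mul, integral_const_mul,
      eta_left_integral hδ, mul_one]
    rfl
  nlinarith

end Pool.Agent.Helper92.Bose
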