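import Mathlib
import Pool.Agent.Helper92.Bose.Sm

set_option autoImplicit false
open MeasureTheory

namespace Pool.Agent.Helper92.Bose

open Pool.Agent.Helper23.Bose

variable {δ : ℝ} {ν : Measure E3}

/-- `∂ₖρ/(2ρ)` -/
noncomputable def a0 (δ : ℝ) (ν : Measure E3) (k : Fin 3) (y : E3) : ℝ :=
  fderiv ℝ (rho δ ν) y (ek k) / (2 * rho δ ν y)

theorem a0_abs_le (hδ : 0 < δ) (ν : Measure E3) [IsProbabilityMeasure ν] (k : Fin 3) (y : E3) :
    |a0 δ ν k y| ≤ 1 / (2 * δ) := by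
  unfold a0
  have hr := rho_pos hδ ν y
  have h := rho_abs_fderiv hδ ν y (ek k)
  rw [show ‖ek k‖ = 1 by simp [ek], mul_one] at h
  rw [abs_div, abs_of_pos (show 0 < 2 * rho δ ν y by positivity), div_le_iff₀ (by positivity)]
  refine h.trans (le_of_eq ?_)
  field_simp

theorem a0_continuous (hδ : 0 < δ) (ν : Measure E3) [IsProbabilityMeasure ν]
    (hR : ∃ R : ℝ, ν (Metric.closedBall 0 R)ᶜ = 0) (k : Fin 3) : Continuous (a0 δ ν k) := by
  unfold a0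
  exact ((rho_fderiv_continuous hδ ν hR).clm_apply continuous_const).div
    (continuous_const.mul (rho_continuous hδ ν)) fun y => (mul_pos two_pos (rho_pos hδ ν y)).ne'

/-- the vector field `A = a₀ * η` -/
noncomputable def Avec (δ : ℝ) (ν : Measure E3) (x : E3) : E3 :=
  WithLp.toLp 2 (fun k => Sm δ (a0 δ ν k) x)

theorem Avec_apply (x : E3) (k : Fin 3) : (Avec δ ν x) k = Sm δ (a0 δ ν k) x := rfl

theorem Avec_norm_sq (x : E3) : ‖Avec δ ν x‖ ^ 2 = ∑ k : Fin 3, (Sm δ (a0 δ ν k) x) ^ 2 := by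
  rw [EuclideanSpace.norm_sq_eq]
  refine Finset.sum_congr rfl fun k _ => ?_
  rw [Avec_apply, Real.norm_eq_abs, sq_abs]

theorem Avec_continuous (hδ : 0 < δ) (ν : Measure E3) [IsProbabilityMeasure ν]
    (hR : ∃ R : ℝ, ν (Metric.closedBall 0 R)ᶜ = 0) : Continuous (Avec δ ν) := by
  unfold Avec
  refine (PiLp.continuous_toLp 2 _).comp (continuous_pi fun k => ?_)
  exact sm_continuous hδ (a0_continuous hδ ν hR k) (a0_abs_le hδ ν k)

theorem Avec_norm_le (hδ : 0 < δ) (ν : Measure E3) [IsProbabilityMeasure ν]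
    (hR : ∃ R : ℝ, ν (Metric.closedBall 0 R)ᶜ = 0) (x : E3) : ‖Avec δ ν x‖ ≤ 1 / δ := by
  have h1 : ‖Avec δ ν x‖ ^ 2 ≤ (1 / δ) ^ 2 := by
    rw [Avec_norm_sq]
    calc ∑ k : Fin 3, (Sm δ (a0 δ ν k) x) ^ 2 ≤ ∑ _k : Fin 3, (1 / (2 * δ)) ^ 2 := by
          refine Finset.sum_le_sum fun k _ => ?_
          have := sm_abs_le hδ (a0_continuous hδ ν hR k) (a0_abs_le hδ ν k) x
          rw [← sq_abs]
          exact pow_le_pow_left₀ (abs_nonneg _) this 2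
      _ ≤ (1 / δ) ^ 2 := by
          simp only [Finset.sum_const, Finset.card_univ, Fintype.card_fin, nsmul_eq_mul]
          rw [show (1 / δ) ^ 2 = 4 * (1 / (2 * δ)) ^ 2 by field_simp; norm_num]
          push_cast
          nlinarith [sq_nonneg (1 / (2 * δ))]
  exact (sq_le_sq₀ (norm_nonneg _) (by positivity)).1 h1

/-- `∫ |A|² dν ≤ ∫ |∇ρ|²/(4ρ)` -/
theorem Avec_sq_integral_le (hδ : 0 < δ) (ν : Measure E3) [IsProbabilityMeasure ν]
    (hR : ∃ R : ℝ, ν (Metric.closedBall 0 R)ᶜ = 0) :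
    ∫ x, ‖Avec δ ν x‖ ^ 2 ∂ν ≤ Tkin δ ν := by
  have hc := a0_continuous hδ ν hR
  have hb := a0_abs_le hδ ν
  have hb2 : ∀ k y, |a0 δ ν k y ^ 2| ≤ (1 / (2 * δ)) ^ 2 := fun k y => by
    rw [abs_pow]
    exact pow_le_pow_left₀ (abs_nonneg _) (hb k y) 2
  have hi : ∀ k, Integrable (Sm δ (fun y => a0 δ ν k y ^ 2)) ν := fun k => by
    refine Integrable.mono' (integrable_const ((1 / (2 * δ)) ^ 2))
      (sm_continuous hδ ((hc k).pow 2) (hb2 k)).aestronglyMeasurable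
      (Filter.Eventually.of_forall fun x => ?_)
    rw [Real.norm_eq_abs]
    exact sm_abs_le hδ ((hc k).pow 2) (hb2 k) x
  have hi1 : ∀ k, Integrable (fun x => (Sm δ (a0 δ ν k) x) ^ 2) ν := fun k => by
    refine Integrable.mono' (integrable_const ((1 / (2 * δ)) ^ 2))
      ((sm_continuous hδ (hc k) (hb k)).pow 2).aestronglyMeasurable
      (Filter.Eventually.of_forall fun x => ?_)
    rw [Real.norm_eq_abs, abs_pow]
    exact pow_le_pow_left₀ (abs_nonneg _) (sm_abs_le hδ (hc k) (hb k) x) 2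
  have hj : ∀ k, Integrable (fun y => a0 δ ν k y ^ 2 * rho δ ν y) := fun k => by
    refine Integrable.bdd_mul (c := (1 / (2 * δ)) ^ 2) (rho_integrable hδ ν)
      ((hc k).pow 2).aestronglyMeasurable (Filter.Eventually.of_forall fun x => ?_)
    rw [Real.norm_eq_abs]
    exact hb2 k x
  simp_rw [Avec_norm_sq]
  rw [integral_finsetSum _ fun k _ => hi1 k]
  calc ∑ k : Fin 3, ∫ x, (Sm δ (a0 δ ν k) x) ^ 2 ∂ν
      ≤ ∑ k : Fin 3, ∫ x, Sm δ (fun y => a0 δ ν k y ^ 2) x ∂ν :=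
        Finset.sum_le_sum fun k _ => integral_mono (hi1 k) (hi k) fun x =>
          sm_sq_le hδ (hc k) (hb k) x
    _ = ∑ k : Fin 3, ∫ y, a0 δ ν k y ^ 2 * rho δ ν y := by
        refine Finset.sum_congr rfl fun k _ => ?_
        exact sm_integral_nu hδ ((hc k).pow 2) (hb2 k) ν
    _ = Tkin δ ν := by
        rw [← integral_finsetSum _ fun k _ => hj k]
        unfold Tkin
        refine integral_congr_ae (Filter.Eventually.of_forall fun y => ?_)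
        simp only [a0, drho2]
        have hr := rho_pos hδ ν y
        rw [Finset.sum_div]
        refine Finset.sum_congr rfl fun k _ => ?_
        field_simp
        try ring

/-! ### the scalar functions -/

/-- `G'(s)` -/
noncomputable def Gp (b1 b2 s : ℝ) : ℝ := b1 * s + b2 / 2 * s ^ 2

/-- `κ(s) = s G'(s) - G(s)` -/
noncomputable def kp (b1 b2 s : ℝ) : ℝ := b1 / 2 * s ^ 2 + b2 / 3 * s ^ 3

/-- the function `λ` -/
noncomputable def lamf (b1 b2 δ : ℝ) (ν : Measure E3) : E3 → ℝ :=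
  Sm δ (fun y => Gp b1 b2 (rho δ ν y))

/-- the function `γ` -/
noncomputable def gamf (b1 b2 δ : ℝ) (ν : Measure E3) : E3 → ℝ :=
  Sm δ (fun y => kp b1 b2 (rho δ ν y))

variable {b1 b2 : ℝ}

/-- the sup bound of `ρ` -/
noncomputable def Sr (δ : ℝ) : ℝ := (kapI * δ ^ 3)⁻¹

theorem Sr_pos (hδ : 0 < δ) : 0 < Sr δ := by
  unfold Sr
  have := kapI_pos
  positivity

theorem rho_le_Sr (hδ : 0 < δ) (ν : Measure E3) [IsProbabilityMeasure ν] (y : E3) :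
    rho δ ν y ≤ Sr δ := rho_le hδ ν y

/-- the constant `Λ` -/
noncomputable def Lam (b1 b2 δ : ℝ) : ℝ :=
  1 / δ + (b1 + b2 / 2 * Sr δ) + (b1 * Sr δ + b2 / 2 * Sr δ ^ 2)

theorem Gp_continuous (hδ : 0 < δ) (ν : Measure E3) [IsProbabilityMeasure ν] :
    Continuous (fun y => Gp b1 b2 (rho δ ν y)) := by
  unfold Gp
  have := rho_continuous hδ ν
  fun_prop

theorem kp_continuous (hδ : 0 < δ) (ν : Measure E3) [IsProbabilityMeasure ν] :
    Continuous (fun y => kp b1 b2 (rho δ ν y)) := by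
  unfold kp
  have := rho_continuous hδ ν
  fun_prop

theorem Gp_nonneg (hb1 : 0 ≤ b1) (hb2 : 0 ≤ b2) (hδ : 0 < δ) (ν : Measure E3)
    [IsProbabilityMeasure ν] (y : E3) : 0 ≤ Gp b1 b2 (rho δ ν y) := by
  unfold Gp
  have := rho_pos hδ ν y
  positivity

theorem kp_nonneg (hb1 : 0 ≤ b1) (hb2 : 0 ≤ b2) (hδ : 0 < δ) (ν : Measure E3)
    [IsProbabilityMeasure ν] (y : E3) : 0 ≤ kp b1 b2 (rho δ ν y) := by
  unfold kp
  have := rho_pos hδ ν y
  positivity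

theorem Gp_abs_le (hb1 : 0 ≤ b1) (hb2 : 0 ≤ b2) (hδ : 0 < δ) (ν : Measure E3)
    [IsProbabilityMeasure ν] (y : E3) :
    |Gp b1 b2 (rho δ ν y)| ≤ b1 * Sr δ + b2 / 2 * Sr δ ^ 2 := by
  rw [abs_of_nonneg (Gp_nonneg hb1 hb2 hδ ν y)]
  unfold Gp
  have h1 := rho_pos hδ ν y
  have h2 := rho_le_Sr hδ ν y
  gcongr

theorem kp_abs_le (hb1 : 0 ≤ b1) (hb2 : 0 ≤ b2) (hδ : 0 < δ) (ν : Measure E3)
    [IsProbabilityMeasure ν] (y : E3) :
    |kp b1 b2 (rho δ ν y)| ≤ b1 / 2 * Sr δ ^ 2 + b2 / 3 * Sr δ ^ 3 := by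
  rw [abs_of_nonneg (kp_nonneg hb1 hb2 hδ ν y)]
  unfold kp
  have h1 := rho_pos hδ ν y
  have h2 := rho_le_Sr hδ ν y
  gcongr

theorem Gp_integrable (b1 b2 : ℝ) (hδ : 0 < δ) (ν : Measure E3) [IsProbabilityMeasure ν] :
    Integrable (fun y => Gp b1 b2 (rho δ ν y)) := by
  unfold Gp
  exact ((rho_integrable hδ ν).const_mul _).add ((rho_pow_integrable hδ ν 1).const_mul _)

theorem kp_integrable (b1 b2 : ℝ) (hδ : 0 < δ) (ν : Measure E3) [IsProbabilityMeasure ν] :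
    Integrable (fun y => kp b1 b2 (rho δ ν y)) := by
  unfold kp
  exact ((rho_pow_integrable hδ ν 1).const_mul _).add ((rho_pow_integrable hδ ν 2).const_mul _)

theorem lamf_continuous (hb1 : 0 ≤ b1) (hb2 : 0 ≤ b2) (hδ : 0 < δ) (ν : Measure E3)
    [IsProbabilityMeasure ν] : Continuous (lamf b1 b2 δ ν) :=
  sm_continuous hδ (Gp_continuous hδ ν) (Gp_abs_le hb1 hb2 hδ ν)

theorem gamf_continuous (hb1 : 0 ≤ b1) (hb2 : 0 ≤ b2) (hδ : 0 < δ) (ν : Measure E3)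
    [IsProbabilityMeasure ν] : Continuous (gamf b1 b2 δ ν) :=
  sm_continuous hδ (kp_continuous hδ ν) (kp_abs_le hb1 hb2 hδ ν)

theorem lamf_nonneg (hb1 : 0 ≤ b1) (hb2 : 0 ≤ b2) (hδ : 0 < δ) (ν : Measure E3)
    [IsProbabilityMeasure ν] (x : E3) : 0 ≤ lamf b1 b2 δ ν x :=
  sm_nonneg hδ (Gp_nonneg hb1 hb2 hδ ν) x

theorem gamf_nonneg (hb1 : 0 ≤ b1) (hb2 : 0 ≤ b2) (hδ : 0 < δ) (ν : Measure E3)
    [IsProbabilityMeasure ν] (x : E3) : 0 ≤ gamf b1 b2 δ ν x :=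
  sm_nonneg hδ (kp_nonneg hb1 hb2 hδ ν) x

theorem lamf_le (hb1 : 0 ≤ b1) (hb2 : 0 ≤ b2) (hδ : 0 < δ) (ν : Measure E3)
    [IsProbabilityMeasure ν] (x : E3) : lamf b1 b2 δ ν x ≤ Lam b1 b2 δ := by
  have h1 := sm_abs_le hδ (Gp_continuous hδ ν) (Gp_abs_le hb1 hb2 hδ ν) x
  have h2 : lamf b1 b2 δ ν x ≤ _ := (le_abs_self _).trans h1
  refine h2.trans ?_
  unfold Lam
  have := Sr_pos hδ
  have : 0 ≤ 1 / δ + (b1 + b2 / 2 * Sr δ) := by positivity
  linarith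

theorem lamf_integrable (b1 b2 : ℝ) (hδ : 0 < δ) (ν : Measure E3) [IsProbabilityMeasure ν] :
    Integrable (lamf b1 b2 δ ν) :=
  sm_int hδ (Gp_continuous hδ ν) (Gp_integrable b1 b2 hδ ν)

theorem gamf_integrable (b1 b2 : ℝ) (hδ : 0 < δ) (ν : Measure E3) [IsProbabilityMeasure ν] :
    Integrable (gamf b1 b2 δ ν) :=
  sm_int hδ (kp_continuous hδ ν) (kp_integrable b1 b2 hδ ν)

theorem gamf_integral (b1 b2 : ℝ) (hδ : 0 < δ) (ν : Measure E3) [IsProbabilityMeasure ν] :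
    ∫ x, gamf b1 b2 δ ν x = ∫ y, kp b1 b2 (rho δ ν y) :=
  sm_integral hδ (kp_continuous hδ ν) (kp_integrable b1 b2 hδ ν)

theorem lamf_integral_le (hb1 : 0 ≤ b1) (hb2 : 0 ≤ b2) (hδ : 0 < δ) (ν : Measure E3)
    [IsProbabilityMeasure ν] : ∫ x, lamf b1 b2 δ ν x ≤ Lam b1 b2 δ := by
  have h1 : ∫ x, lamf b1 b2 δ ν x = ∫ y, Gp b1 b2 (rho δ ν y) :=
    sm_integral hδ (Gp_continuous hδ ν) (Gp_integrable b1 b2 hδ ν)
  rw [h1]
  calc ∫ y, Gp b1 b2 (rho δ ν y) ≤ ∫ y, (b1 + b2 / 2 * Sr δ) * rho δ ν y := by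
        refine integral_mono (Gp_integrable b1 b2 hδ ν) ((rho_integrable hδ ν).const_mul _)
          fun y => ?_
        simp only [Gp]
        have h1 := rho_pos hδ ν y
        have h2 := rho_le_Sr hδ ν y
        have h3 : b2 / 2 * (rho δ ν y * rho δ ν y) ≤ b2 / 2 * (Sr δ * rho δ ν y) := by gcongr
        nlinarith
    _ = b1 + b2 / 2 * Sr δ := by rw [integral_const_mul, rho_integral hδ ν, mul_one]
    _ ≤ Lam b1 b2 δ := by
        unfold Lam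
        have := Sr_pos hδ
        have : 0 ≤ 1 / δ + (b1 * Sr δ + b2 / 2 * Sr δ ^ 2) := by positivity
        linarith

theorem lamf_harnack (hb1 : 0 ≤ b1) (hb2 : 0 ≤ b2) (hδ : 0 < δ) (ν : Measure E3)
    [IsProbabilityMeasure ν] (x y : E3) :
    lamf b1 b2 δ ν x ≤ Real.exp (Lam b1 b2 δ * ‖x - y‖) * lamf b1 b2 δ ν y := by
  have h1 : lamf b1 b2 δ ν x ≤ Real.exp (‖x - y‖ / δ) * lamf b1 b2 δ ν y :=
    sm_harnack hδ (Gp_continuous hδ ν) (Gp_abs_le hb1 hb2 hδ ν) (Gp_nonneg hb1 hb2 hδ ν) x y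
  refine h1.trans (mul_le_mul_of_nonneg_right ?_ (lamf_nonneg hb1 hb2 hδ ν y))
  rw [Real.exp_le_exp]
  have := Sr_pos hδ
  have h2 : 1 / δ ≤ Lam b1 b2 δ := by
    unfold Lam
    have : 0 ≤ (b1 + b2 / 2 * Sr δ) + (b1 * Sr δ + b2 / 2 * Sr δ ^ 2) := by positivity
    linarith
  calc ‖x - y‖ / δ = 1 / δ * ‖x - y‖ := by ring
    _ ≤ _ := mul_le_mul_of_nonneg_right h2 (norm_nonneg _)

theorem conv_ineq (hb1 : 0 ≤ b1) (hb2 : 0 ≤ b2) {s t : ℝ} (hs : 0 ≤ s) (ht : 0 ≤ t) :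
    Gp b1 b2 s * t ≤ b1 / 2 * t ^ 2 + b2 / 6 * t ^ 3 + kp b1 b2 s := by
  unfold Gp kp
  have h1 : 0 ≤ b1 * (t - s) ^ 2 := by positivity
  have h2 : 0 ≤ b2 * ((t - s) ^ 2 * (t + 2 * s)) := by positivity
  nlinarith

theorem lamf_gamf (hb1 : 0 ≤ b1) (hb2 : 0 ≤ b2) (hδ : 0 < δ) (ν : Measure E3)
    [IsProbabilityMeasure ν] (x : E3) (t : ℝ) (ht : 0 ≤ t) :
    lamf b1 b2 δ ν x * t ≤ b1 / 2 * t ^ 2 + b2 / 6 * t ^ 3 + gamf b1 b2 δ ν x := by
  have i1 := sm_integrable hδ (Gp_continuous hδ ν) (Gp_abs_le hb1 hb2 hδ ν) x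
  have i2 := sm_integrable hδ (kp_continuous hδ ν) (kp_abs_le hb1 hb2 hδ ν) x
  have i3 := (eta_left_integrable hδ x).const_mul (b1 / 2 * t ^ 2 + b2 / 6 * t ^ 3)
  unfold lamf gamf Sm
  rw [← integral_mul_const]
  calc ∫ y, Gp b1 b2 (rho δ ν y) * eta δ (x - y) * t
      ≤ ∫ y, ((b1 / 2 * t ^ 2 + b2 / 6 * t ^ 3) * eta δ (x - y)
          + kp b1 b2 (rho δ ν y) * eta δ (x - y)) := by
        refine integral_mono (i1.mul_const t) (i3.add i2) fun y => ?_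
        simp only
        have h := conv_ineq hb1 hb2 (rho_pos hδ ν y).le ht
        have he := (eta_pos hδ (x - y)).le
        nlinarith [mul_le_mul_of_nonneg_right h he]
    _ = _ := by
        rw [integral_add i3 i2, integral_const_mul, eta_left_integral hδ, mul_one]

/-- `<λ> = ∫ G'(ρ) ρ` -/
theorem lamf_integral_nu (hb1 : 0 ≤ b1) (hb2 : 0 ≤ b2) (hδ : 0 < δ) (ν : Measure E3)
    [IsProbabilityMeasure ν] :
    ∫ x, lamf b1 b2 δ ν x ∂ν = ∫ y, Gp b1 b2 (rho δ ν y) * rho δ ν y :=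
  sm_integral_nu hδ (Gp_continuous hδ ν) (Gp_abs_le hb1 hb2 hδ ν) ν

/-- the combination used in the final estimate -/
theorem lam_gam_combine (hb1 : 0 ≤ b1) (hb2 : 0 ≤ b2) (hδ : 0 < δ) (ν : Measure E3)
    [IsProbabilityMeasure ν] {ε : ℝ} (hε : 0 ≤ ε) :
    (1 - 3 * ε) * Gint b1 b2 δ ν ≤
      (1 - ε) * (∫ x, lamf b1 b2 δ ν x ∂ν) - ∫ x, gamf b1 b2 δ ν x := by
  rw [lamf_integral_nu hb1 hb2 hδ ν, gamf_integral b1 b2 hδ ν]
  have i1 := (rho_pow_integrable hδ ν 1)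
  have i2 := (rho_pow_integrable hδ ν 2)
  have j1 : Integrable (fun y => Gp b1 b2 (rho δ ν y) * rho δ ν y) := by
    have : (fun y => Gp b1 b2 (rho δ ν y) * rho δ ν y) =
        fun y => b1 * rho δ ν y ^ (1 + 1) + b2 / 2 * rho δ ν y ^ (2 + 1) := by
      ext y; unfold Gp; ring
    rw [this]
    exact (i1.const_mul _).add (i2.const_mul _)
  have j2 := kp_integrable b1 b2 hδ ν
  have j3 : Integrable (fun y => b1 / 2 * rho δ ν y ^ 2 + b2 / 6 * rho δ ν y ^ 3) :=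
    (i1.const_mul _).add (i2.const_mul _)
  unfold Gint
  rw [← integral_const_mul, ← integral_const_mul, ← integral_sub (j1.const_mul _) j2]
  refine integral_mono (j3.const_mul _) ((j1.const_mul _).sub j2) fun y => ?_
  simp only [Gp, kp]
  have hr := (rho_pos hδ ν y).le
  have h1 : 0 ≤ ε * (b1 * rho δ ν y ^ 2) := by positivity
  nlinarith

end Pool.Agent.Helper92.Bose
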