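import Mathlib
import Pool.Agent.Helper92.Bose.Kern
import Pool.Agent.Helper23.Bose.PropMain

set_option autoImplicit false
open MeasureTheory
open scoped ENNReal

namespace Pool.Agent.Helper92.Bose

open Pool.Agent.Helper23.Bose

variable {N : ℕ} {ψ : (Fin N → E3) → ℂ}

/-- `|ψ|² dx` -/
noncomputable def psiM (ψ : (Fin N → E3) → ℂ) : Measure (Fin N → E3) :=
  volume.withDensity (fun x => ENNReal.ofReal (‖ψ x‖ ^ 2))

/-- the law of the `i`-th particle -/
noncomputable def lawi (ψ : (Fin N → E3) → ℂ) (i : Fin N) : Measure E3 :=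
  (psiM ψ).map (fun x => x i)

/-- the average of the laws of the particles -/
noncomputable def nu (ψ : (Fin N → E3) → ℂ) : Measure E3 := (N : ℝ≥0∞)⁻¹ • ∑ i, lawi ψ i

theorem dens_meas (hψ : Continuous ψ) : Measurable (fun x => ENNReal.ofReal (‖ψ x‖ ^ 2)) :=
  ENNReal.measurable_ofReal.comp (hψ.norm.measurable.pow_const 2)

theorem integral_lawi (hψ : Continuous ψ) {h : E3 → ℝ} (hh : Measurable h) (i : Fin N) :
    ∫ t, h t ∂(lawi ψ i) = ∫ x, h (x i) * ‖ψ x‖ ^ 2 := by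
  unfold lawi psiM
  rw [integral_map (measurable_pi_apply i).aemeasurable hh.aestronglyMeasurable,
    integral_withDensity_eq_integral_toReal_smul (dens_meas hψ)
      (Filter.Eventually.of_forall fun x => ENNReal.ofReal_lt_top)]
  refine integral_congr_ae (Filter.Eventually.of_forall fun x => ?_)
  simp only [smul_eq_mul]
  rw [ENNReal.toReal_ofReal (by positivity), mul_comm]

theorem integrable_lawi (hψ : Continuous ψ) {h : E3 → ℝ} (hh : Measurable h) (i : Fin N)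
    (hi : Integrable (fun x => h (x i) * ‖ψ x‖ ^ 2)) : Integrable h (lawi ψ i) := by
  unfold lawi psiM
  rw [integrable_map_measure hh.aestronglyMeasurable (measurable_pi_apply i).aemeasurable,
    integrable_withDensity_iff (dens_meas hψ)
      (Filter.Eventually.of_forall fun x => ENNReal.ofReal_lt_top)]
  refine hi.congr (Filter.Eventually.of_forall fun x => ?_)
  simp only [Function.comp_apply]
  rw [ENNReal.toReal_ofReal (by positivity)]

theorem lawi_univ (hψ : Continuous ψ) (hc : HasCompactSupport ψ) (hn : ∫ x, ‖ψ x‖ ^ 2 = 1)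
    (i : Fin N) : lawi ψ i Set.univ = 1 := by
  unfold lawi psiM
  rw [Measure.map_apply (measurable_pi_apply i) MeasurableSet.univ, Set.preimage_univ,
    withDensity_apply _ MeasurableSet.univ, Measure.restrict_univ,
    ← ofReal_integral_eq_lintegral_ofReal (integrable_sq hψ hc)
      (Filter.Eventually.of_forall fun x => by positivity), hn, ENNReal.ofReal_one]

theorem nu_prob (hN : 0 < N) (hψ : Continuous ψ) (hc : HasCompactSupport ψ)
    (hn : ∫ x, ‖ψ x‖ ^ 2 = 1) : IsProbabilityMeasure (nu ψ) := by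
  constructor
  unfold nu
  rw [Measure.smul_apply, Measure.finsetSum_apply]
  simp_rw [lawi_univ hψ hc hn]
  simp only [Finset.sum_const, Finset.card_univ, Fintype.card_fin, nsmul_eq_mul, mul_one,
    smul_eq_mul]
  exact ENNReal.inv_mul_cancel (by simp [hN.ne']) (by simp)

theorem nu_cpt (hψ : Continuous ψ) (hc : HasCompactSupport ψ) :
    ∃ R : ℝ, nu ψ (Metric.closedBall 0 R)ᶜ = 0 := by
  obtain ⟨R, hR⟩ := hc.isCompact.isBounded.subset_closedBall 0
  refine ⟨R, ?_⟩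
  unfold nu
  rw [Measure.smul_apply, Measure.finsetSum_apply]
  have : ∀ i : Fin N, lawi ψ i (Metric.closedBall 0 R)ᶜ = 0 := by
    intro i
    unfold lawi psiM
    have hm : MeasurableSet (Metric.closedBall (0 : E3) R)ᶜ := measurableSet_closedBall.compl
    rw [Measure.map_apply (measurable_pi_apply i) hm,
      withDensity_apply _ ((measurable_pi_apply i) hm)]
    rw [setLIntegral_eq_zero_iff ((measurable_pi_apply i) hm) (dens_meas hψ)]
    refine Filter.Eventually.of_forall fun x hx => ?_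
    have hx' : x ∉ tsupport ψ := by
      intro h
      have h1 := hR h
      rw [mem_closedBall_zero_iff] at h1
      apply hx
      rw [mem_closedBall_zero_iff]
      exact (norm_le_pi_norm x i).trans h1
    rw [image_eq_zero_of_notMem_tsupport hx']
    simp
  simp [this]

theorem integral_nu (hψ : Continuous ψ) {h : E3 → ℝ} (hh : Measurable h)
    (hi : ∀ i, Integrable (fun x => h (x i) * ‖ψ x‖ ^ 2)) :
    ∫ t, h t ∂(nu ψ) = (N : ℝ)⁻¹ * ∑ i, ∫ x, h (x i) * ‖ψ x‖ ^ 2 := by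
  unfold nu
  rw [integral_smul_measure, integral_finsetSum_measure
    (fun i _ => integrable_lawi hψ hh i (hi i))]
  simp_rw [integral_lawi hψ hh]
  simp

theorem sum_eq_nu (hN : 0 < N) (hψ : Continuous ψ) {h : E3 → ℝ} (hh : Measurable h)
    (hi : ∀ i, Integrable (fun x => h (x i) * ‖ψ x‖ ^ 2)) :
    ∑ i, ∫ x, h (x i) * ‖ψ x‖ ^ 2 = N * ∫ t, h t ∂(nu ψ) := by
  rw [integral_nu hψ hh hi, ← mul_assoc, mul_inv_cancel₀ (by positivity), one_mul]

/-- integrability for bounded measurable functions of one particle -/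
theorem integrable_bdd (hψ : Continuous ψ) (hc : HasCompactSupport ψ) {h : E3 → ℝ}
    (hh : Measurable h) {B : ℝ} (hB : ∀ x, |h x| ≤ B) (i : Fin N) :
    Integrable (fun x => h (x i) * ‖ψ x‖ ^ 2) := by
  refine Integrable.bdd_mul (c := B) (integrable_sq hψ hc)
    (hh.comp (measurable_pi_apply i)).aestronglyMeasurable ?_
  exact Filter.Eventually.of_forall fun y => by
    rw [Real.norm_eq_abs]; exact hB _

/-- integrability for the external potential -/
theorem integrable_ext {Vext W : E3 → ℝ} {V : E3 × E3 → ℝ} (H : Hyp Vext W V)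
    (hψ : Continuous ψ) (hc : HasCompactSupport ψ) (i : Fin N) :
    Integrable (fun x => Vext (x i) * ‖ψ x‖ ^ 2) := by
  obtain ⟨M, hM⟩ := H.vloc ((fun x : Fin N → E3 => x i) '' tsupport ψ)
    (hc.isCompact.image (continuous_apply i))
  have h1 : IntegrableOn (fun x => Vext (x i) * ‖ψ x‖ ^ 2) (tsupport ψ) := by
    have h2 : IntegrableOn (fun y => ‖ψ y‖ ^ 2) (tsupport ψ) :=
      (hψ.norm.pow 2).continuousOn.integrableOn_compact hc
    refine Integrable.bdd_mul (c := M) h2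
      (H.vm.comp (measurable_pi_apply i)).aestronglyMeasurable.restrict ?_
    rw [ae_restrict_iff' (isClosed_tsupport ψ).measurableSet]
    exact Filter.Eventually.of_forall fun x hx => by
      rw [Real.norm_eq_abs]; exact hM _ ⟨x, hx, rfl⟩
  refine (integrableOn_iff_integrable_of_support_subset ?_).1 h1
  intro x hx
  apply subset_tsupport
  intro h0
  apply hx
  simp [h0]

/-! ### translation estimate -/

/-- `∫ |φ(x+w) - φ(x)| ≤ ∫ |Dφ(x) w|` -/
theorem transl_L1 {φ : (Fin N → E3) → ℝ} (hφ : ContDiff ℝ 1 φ) (w : Fin N → E3) :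
    ∫⁻ x, ‖φ (x + w) - φ x‖ₑ ≤ ∫⁻ x, ‖fderiv ℝ φ x w‖ₑ := by
  have hd : Continuous (fderiv ℝ φ) := hφ.continuous_fderiv one_ne_zero
  have hpt : ∀ x, ‖φ (x + w) - φ x‖ₑ ≤
      ∫⁻ t in Set.Ioc (0 : ℝ) 1, ‖fderiv ℝ φ (x + t • w) w‖ₑ := by
    intro x
    have hder : ∀ t ∈ Set.uIcc (0 : ℝ) 1,
        HasDerivAt (fun t : ℝ => φ (x + t • w)) (fderiv ℝ φ (x + t • w) w) t := by
      intro t _
      have h1 : HasFDerivAt φ (fderiv ℝ φ (x + t • w)) (x + t • w) :=
        ((hφ.differentiable one_ne_zero) _).hasFDerivAt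
      have h2 : HasDerivAt (fun t : ℝ => x + t • w) w t := by
        simpa using ((hasDerivAt_id t).smul_const w).const_add x
      exact h1.comp_hasDerivAt t h2
    have hcont : Continuous (fun t : ℝ => fderiv ℝ φ (x + t • w) w) :=
      (hd.comp (continuous_const.add (continuous_id.smul continuous_const))).clm_apply
        continuous_const
    have h3 := intervalIntegral.integral_eq_sub_of_hasDerivAt hder
      (hcont.intervalIntegrable 0 1)
    simp only [one_smul, zero_smul, add_zero] at h3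
    rw [← h3, intervalIntegral.integral_of_le zero_le_one]
    exact enorm_integral_le_lintegral_enorm _
  calc ∫⁻ x, ‖φ (x + w) - φ x‖ₑ
      ≤ ∫⁻ x, ∫⁻ t in Set.Ioc (0 : ℝ) 1, ‖fderiv ℝ φ (x + t • w) w‖ₑ := lintegral_mono hpt
    _ = ∫⁻ t in Set.Ioc (0 : ℝ) 1, ∫⁻ x, ‖fderiv ℝ φ (x + t • w) w‖ₑ := by
        rw [lintegral_lintegral_swap]
        have hc : Continuous (fun p : (Fin N → E3) × ℝ => fderiv ℝ φ (p.1 + p.2 • w) w) :=
          (hd.comp (continuous_fst.add (continuous_snd.smul continuous_const))).clm_apply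
            continuous_const
        exact hc.enorm.measurable.aemeasurable
    _ = ∫⁻ _t in Set.Ioc (0 : ℝ) 1, ∫⁻ x, ‖fderiv ℝ φ x w‖ₑ := by
        refine lintegral_congr fun t => ?_
        exact lintegral_add_right_eq_self (fun x => ‖fderiv ℝ φ x w‖ₑ) (t • w)
    _ = _ := by simp

/-- the derivative of `|ψ|²` -/
theorem fderiv_normsq (hψ : ContDiff ℝ 1 ψ) (x v : Fin N → E3) :
    fderiv ℝ (fun x => ‖ψ x‖ ^ 2) x v =
      2 * ((starRingEnd ℂ) (ψ x) * fderiv ℝ ψ x v).re := by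
  have h1 : HasFDerivAt ψ (fderiv ℝ ψ x) x := ((hψ.differentiable one_ne_zero) x).hasFDerivAt
  have h2 := h1.norm_sq
  rw [h2.fderiv]
  simp [Complex.inner, mul_comm]
  ring

theorem normsq_contDiff (hψ : ContDiff ℝ 1 ψ) : ContDiff ℝ 1 (fun x => ‖ψ x‖ ^ 2) :=
  hψ.norm_sq ℝ

theorem single_decomp (i : Fin N) (z : E3) :
    (Pi.single i z : Fin N → E3) = ∑ k : Fin 3, z k • (Pi.single i (ek k) : Fin N → E3) := by
  have hz : z = ∑ k : Fin 3, z k • ek k := by
    ext j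
    simp [ek, Fin.sum_univ_three]
    fin_cases j <;> simp
  conv_lhs => rw [hz]
  ext j
  by_cases hj : j = i
  · subst hj
    simp
  · simp [Pi.single_eq_of_ne hj]

theorem fderiv_single_sq_le (i : Fin N) (z : E3) (x : Fin N → E3) :
    ‖fderiv ℝ ψ x (Pi.single i z)‖ ^ 2 ≤ ‖z‖ ^ 2 * gradi ψ i x := by
  rw [single_decomp i z, map_sum]
  simp_rw [map_smul]
  have h1 : ‖∑ k : Fin 3, z k • fderiv ℝ ψ x (Pi.single i (ek k))‖
      ≤ ∑ k : Fin 3, ‖z k‖ * ‖fderiv ℝ ψ x (Pi.single i (ek k))‖ := by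
    refine (norm_sum_le _ _).trans (le_of_eq ?_)
    refine Finset.sum_congr rfl fun k _ => ?_
    rw [norm_smul]
  calc ‖∑ k : Fin 3, z k • fderiv ℝ ψ x (Pi.single i (ek k))‖ ^ 2
      ≤ (∑ k : Fin 3, ‖z k‖ * ‖fderiv ℝ ψ x (Pi.single i (ek k))‖) ^ 2 :=
        pow_le_pow_left₀ (norm_nonneg _) h1 2
    _ ≤ (∑ k : Fin 3, ‖z k‖ ^ 2) * ∑ k : Fin 3, ‖fderiv ℝ ψ x (Pi.single i (ek k))‖ ^ 2 :=
        Finset.sum_mul_sq_le_sq_mul_sq _ _ _
    _ = ‖z‖ ^ 2 * gradi ψ i x := by rw [EuclideanSpace.norm_sq_eq]; rfl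

theorem transl_i (hψ : ContDiff ℝ 1 ψ) (hc : HasCompactSupport ψ) (hn : ∫ x, ‖ψ x‖ ^ 2 = 1)
    {h : E3 → ℝ} (hh : Measurable h) {B : ℝ} (hB : ∀ x, |h x| ≤ B) (i : Fin N) (z : E3)
    {s : ℝ} (hs : 0 < s) :
    |(∫ x, h (x i + z) * ‖ψ x‖ ^ 2) - ∫ x, h (x i) * ‖ψ x‖ ^ 2| ≤
      B * (s + s⁻¹ * ‖z‖ ^ 2 * ∫ x, gradi ψ i x) := by
  have hB0 : 0 ≤ B := (abs_nonneg _).trans (hB 0)
  set w : Fin N → E3 := Pi.single i z with hw
  set φ : (Fin N → E3) → ℝ := fun x => ‖ψ x‖ ^ 2 with hφ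
  have hφc := normsq_contDiff hψ
  have iφ : Integrable φ := integrable_sq hψ.continuous hc
  have iφw : Integrable (fun x => φ (x - w)) := iφ.comp_sub_right w
  have hhm : AEStronglyMeasurable (fun x : Fin N → E3 => h (x i)) volume :=
    (hh.comp (measurable_pi_apply i)).aestronglyMeasurable
  have e1 : ∫ x, h (x i + z) * ‖ψ x‖ ^ 2 = ∫ x, h (x i) * φ (x - w) := by
    rw [← integral_sub_right_eq_self (fun x : Fin N → E3 => h (x i + z) * ‖ψ x‖ ^ 2) w]
    refine integral_congr_ae (Filter.Eventually.of_forall fun x => ?_)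
    simp [hw, hφ]
  have j1 : Integrable (fun x => h (x i) * φ (x - w)) :=
    Integrable.bdd_mul (c := B) iφw hhm
      (Filter.Eventually.of_forall fun x => by rw [Real.norm_eq_abs]; exact hB _)
  have j2 : Integrable (fun x => h (x i) * φ x) :=
    Integrable.bdd_mul (c := B) iφ hhm
      (Filter.Eventually.of_forall fun x => by rw [Real.norm_eq_abs]; exact hB _)
  have ig := integrable_gradi hψ hc i
  have iR : Integrable (fun x => s * φ x + s⁻¹ * ‖z‖ ^ 2 * gradi ψ i x) :=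
    (iφ.const_mul s).add (ig.const_mul _)
  have hR0 : ∀ x, 0 ≤ s * φ x + s⁻¹ * ‖z‖ ^ 2 * gradi ψ i x := fun x => by
    have := gradi_nonneg ψ i x
    simp only [hφ]
    positivity
  -- the L¹ bound
  have key : ∫ x, |φ (x - w) - φ x| ≤ s + s⁻¹ * ‖z‖ ^ 2 * ∫ x, gradi ψ i x := by
    have h1 : ∫⁻ x, ‖φ (x - w) - φ x‖ₑ ≤ ∫⁻ x, ‖fderiv ℝ φ x (-w)‖ₑ := by
      simpa only [sub_eq_add_neg] using transl_L1 hφc (-w)
    have h2 : ∫⁻ x, ‖fderiv ℝ φ x (-w)‖ₑ ≤
        ∫⁻ x, ENNReal.ofReal (s * φ x + s⁻¹ * ‖z‖ ^ 2 * gradi ψ i x) := by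
      refine lintegral_mono fun x => ?_
      rw [← ofReal_norm]
      apply ENNReal.ofReal_le_ofReal
      rw [map_neg, norm_neg, fderiv_normsq hψ]
      have h3 := fderiv_single_sq_le (ψ := ψ) i z x
      have h4 : ‖2 * ((starRingEnd ℂ) (ψ x) * fderiv ℝ ψ x w).re‖ ≤
          2 * (‖ψ x‖ * ‖fderiv ℝ ψ x w‖) := by
        rw [norm_mul, Real.norm_eq_abs, Real.norm_eq_abs, abs_of_pos (two_pos)]
        have := Complex.abs_re_le_norm ((starRingEnd ℂ) (ψ x) * fderiv ℝ ψ x w)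
        rw [norm_mul, RCLike.norm_conj] at this
        linarith
      refine h4.trans ?_
      have h5 : 2 * (‖ψ x‖ * ‖fderiv ℝ ψ x w‖) ≤ s * ‖ψ x‖ ^ 2 + s⁻¹ * ‖fderiv ℝ ψ x w‖ ^ 2 := by
        have h6 : 0 ≤ s⁻¹ * (s * ‖ψ x‖ - ‖fderiv ℝ ψ x w‖) ^ 2 := by positivity
        have h7 : s⁻¹ * (s * ‖ψ x‖ - ‖fderiv ℝ ψ x w‖) ^ 2 =
            s * ‖ψ x‖ ^ 2 + s⁻¹ * ‖fderiv ℝ ψ x w‖ ^ 2 - 2 * (‖ψ x‖ * ‖fderiv ℝ ψ x w‖) := by
          field_simp
          ring
        linarith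
      refine h5.trans ?_
      have h8 : s⁻¹ * ‖fderiv ℝ ψ x w‖ ^ 2 ≤ s⁻¹ * (‖z‖ ^ 2 * gradi ψ i x) :=
        mul_le_mul_of_nonneg_left h3 (by positivity)
      simp only [hφ]
      linarith
    have h9 : ∫ x, |φ (x - w) - φ x| = (∫⁻ x, ‖φ (x - w) - φ x‖ₑ).toReal := by
      have hm : AEStronglyMeasurable (fun x => φ (x - w) - φ x) volume :=
        (iφw.sub iφ).aestronglyMeasurable
      rw [← integral_norm_eq_lintegral_enorm hm]
      rfl
    rw [h9]
    have h10 : ∫ x, (s * φ x + s⁻¹ * ‖z‖ ^ 2 * gradi ψ i x) =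
        s + s⁻¹ * ‖z‖ ^ 2 * ∫ x, gradi ψ i x := by
      rw [integral_add (iφ.const_mul s) (ig.const_mul _), integral_const_mul, integral_const_mul]
      rw [show ∫ x, φ x = 1 from hn, mul_one]
    rw [← h10]
    have h11 : ∫⁻ x, ENNReal.ofReal (s * φ x + s⁻¹ * ‖z‖ ^ 2 * gradi ψ i x) =
        ENNReal.ofReal (∫ x, (s * φ x + s⁻¹ * ‖z‖ ^ 2 * gradi ψ i x)) :=
      (ofReal_integral_eq_lintegral_ofReal iR (Filter.Eventually.of_forall hR0)).symm
    have h12 := h1.trans h2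
    rw [h11] at h12
    exact ENNReal.toReal_le_of_le_ofReal (integral_nonneg hR0) h12
  have e2 : ∫ x, h (x i) * ‖ψ x‖ ^ 2 = ∫ x, h (x i) * φ x := rfl
  rw [e1, e2, ← integral_sub j1 j2]
  calc |∫ x, (h (x i) * φ (x - w) - h (x i) * φ x)|
      ≤ ∫ x, |h (x i) * φ (x - w) - h (x i) * φ x| := abs_integral_le_integral_abs
    _ ≤ ∫ x, B * |φ (x - w) - φ x| := by
        refine integral_mono (j1.sub j2).abs ((iφw.sub iφ).abs.const_mul B) fun x => ?_
        simp only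
        rw [← mul_sub, abs_mul]
        exact mul_le_mul_of_nonneg_right (hB _) (abs_nonneg _)
    _ = B * ∫ x, |φ (x - w) - φ x| := integral_const_mul _ _
    _ ≤ _ := mul_le_mul_of_nonneg_left key hB0

theorem nu_marg {Vext W : E3 → ℝ} {V : E3 × E3 → ℝ} (H : Hyp Vext W V) (hN : 0 < N)
    (hψ : ContDiff ℝ 1 ψ) (hc : HasCompactSupport ψ) (hn : ∫ x, ‖ψ x‖ ^ 2 = 1)
    {M0 : ℝ} (hM0 : 0 < M0) (hk : (∑ i, ∫ x, gradi ψ i x) ≤ M0 * N)
    (hv : (∑ i, ∫ x, Vext (x i) * ‖ψ x‖ ^ 2) ≤ M0 * N) : Marg Vext M0 (nu ψ) := by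
  have hN' : (0 : ℝ) < N := by exact_mod_cast hN
  refine ⟨nu_prob hN hψ.continuous hc hn, nu_cpt hψ.continuous hc, ?_, ?_⟩
  · rw [integral_nu hψ.continuous H.vm (fun i => integrable_ext H hψ.continuous hc i)]
    rw [inv_mul_le_iff₀ hN']
    linarith
  · intro h B hh hB z
    have hB0 : 0 ≤ B := (abs_nonneg _).trans (hB 0)
    have hhz : Measurable (fun x => h (x + z)) := hh.comp (measurable_add_const z)
    rw [integral_nu hψ.continuous hhz (integrable_bdd hψ.continuous hc hhz fun x => hB _),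
      integral_nu hψ.continuous hh (integrable_bdd hψ.continuous hc hh hB)]
    rw [← mul_sub, ← Finset.sum_sub_distrib, abs_mul, abs_of_pos (inv_pos.2 hN'),
      inv_mul_le_iff₀ hN']
    by_cases hz : z = 0
    · subst hz
      simp
    have hz' : 0 < ‖z‖ := norm_pos_iff.2 hz
    have hsq : 0 < Real.sqrt M0 := Real.sqrt_pos.2 hM0
    set s := Real.sqrt M0 * ‖z‖ with hs
    have hs0 : 0 < s := by positivity
    calc |∑ i, ((∫ x, h (x i + z) * ‖ψ x‖ ^ 2) - ∫ x, h (x i) * ‖ψ x‖ ^ 2)|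
        ≤ ∑ i, |(∫ x, h (x i + z) * ‖ψ x‖ ^ 2) - ∫ x, h (x i) * ‖ψ x‖ ^ 2| :=
          Finset.abs_sum_le_sum_abs _ _
      _ ≤ ∑ i, B * (s + s⁻¹ * ‖z‖ ^ 2 * ∫ x, gradi ψ i x) :=
          Finset.sum_le_sum fun i _ => transl_i hψ hc hn hh hB i z hs0
      _ = B * (N * s + s⁻¹ * ‖z‖ ^ 2 * ∑ i, ∫ x, gradi ψ i x) := by
          rw [← Finset.mul_sum, Finset.sum_add_distrib, Finset.mul_sum]
          simp
      _ ≤ B * (N * s + s⁻¹ * ‖z‖ ^ 2 * (M0 * N)) := by
          gcongr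
      _ = N * (2 * B * Real.sqrt M0 * ‖z‖) := by
          have h1 : s⁻¹ * ‖z‖ ^ 2 * (M0 * N) = N * s := by
            rw [hs]
            have h2 : M0 = Real.sqrt M0 * Real.sqrt M0 := (Real.mul_self_sqrt hM0.le).symm
            field_simp
            nlinarith
          rw [h1, hs]
          ring

end Pool.Agent.Helper92.Bose
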