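import Mathlib
import Pool.Agent.Helper92.Bose.Nu

set_option autoImplicit false
open MeasureTheory
open scoped ENNReal

namespace Pool.Agent.Helper92.Bose

open Pool.Agent.Helper23.Bose

variable {N : ℕ} {ψ : (Fin N → E3) → ℂ} {δ : ℝ}

/-- `∂_{i,k} |ψ|²` -/
noncomputable def Dik (ψ : (Fin N → E3) → ℂ) (i : Fin N) (k : Fin 3) (x : Fin N → E3) : ℝ :=
  fderiv ℝ (fun x => ‖ψ x‖ ^ 2) x (Pi.single i (ek k))

theorem Dik_continuous (hψ : ContDiff ℝ 1 ψ) (i : Fin N) (k : Fin 3) : Continuous (Dik ψ i k) := by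
  unfold Dik
  exact ((normsq_contDiff hψ).continuous_fderiv one_ne_zero).clm_apply continuous_const

theorem Dik_hcs (hc : HasCompactSupport ψ) (i : Fin N) (k : Fin 3) :
    HasCompactSupport (Dik ψ i k) := by
  have h1 : HasCompactSupport (fun x => ‖ψ x‖ ^ 2) := hcs_norm_sq hc
  have h2 : HasCompactSupport (fderiv ℝ (fun x => ‖ψ x‖ ^ 2)) := h1.fderiv ℝ
  exact h2.comp_left (g := fun L : (Fin N → E3) →L[ℝ] ℝ => L (Pi.single i (ek k))) (by simp)

theorem Dik_integrable (hψ : ContDiff ℝ 1 ψ) (hc : HasCompactSupport ψ) (i : Fin N) (k : Fin 3) :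
    Integrable (Dik ψ i k) :=
  (Dik_continuous hψ i k).integrable_of_hasCompactSupport (Dik_hcs hc i k)

theorem Dik_eq (hψ : ContDiff ℝ 1 ψ) (i : Fin N) (k : Fin 3) (x : Fin N → E3) :
    Dik ψ i k x = 2 * ((starRingEnd ℂ) (ψ x) * fderiv ℝ ψ x (Pi.single i (ek k))).re :=
  fderiv_normsq hψ x _

/-- `x ↦ η(x_i - y)` -/
theorem etai_hasFDerivAt (δ : ℝ) (i : Fin N) (y : E3) (x : Fin N → E3) :
    HasFDerivAt (fun x : Fin N → E3 => eta δ (x i - y))
      ((fderiv ℝ (eta δ) (x i - y)).comp (ContinuousLinearMap.proj i)) x := by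
  have hd : DifferentiableAt ℝ (eta δ) (x i - y) := ((eta_contDiff δ).differentiable (by simp)) _
  have h1 : HasFDerivAt (fun x : Fin N → E3 => x i - y)
      (ContinuousLinearMap.proj (R := ℝ) (φ := fun _ : Fin N => E3) i) x :=
    (ContinuousLinearMap.proj (R := ℝ) (φ := fun _ : Fin N => E3) i).hasFDerivAt.sub_const y
  exact hd.hasFDerivAt.comp x h1

theorem etai_fderiv (δ : ℝ) (i : Fin N) (y : E3) (x : Fin N → E3) (k : Fin 3) :
    fderiv ℝ (fun x : Fin N → E3 => eta δ (x i - y)) x (Pi.single i (ek k)) =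
      fderiv ℝ (eta δ) (x i - y) (ek k) := by
  rw [(etai_hasFDerivAt δ i y x).fderiv]
  simp

/-- integration by parts -/
theorem ibp (hψ : ContDiff ℝ 1 ψ) (hc : HasCompactSupport ψ) (i : Fin N) (k : Fin 3) (y : E3) :
    ∫ x, eta δ (x i - y) * Dik ψ i k x =
      - ∫ x, fderiv ℝ (eta δ) (x i - y) (ek k) * ‖ψ x‖ ^ 2 := by
  have hce : Continuous (fun x : Fin N → E3 => eta δ (x i - y)) :=
    (eta_continuous δ).comp ((continuous_apply i).sub continuous_const)
  have hcd : Continuous (fun x : Fin N → E3 => fderiv ℝ (eta δ) (x i - y) (ek k)) :=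
    ((eta_fderiv_continuous δ).comp ((continuous_apply i).sub continuous_const)).clm_apply
      continuous_const
  have h1 := integral_mul_fderiv_eq_neg_fderiv_mul_of_integrable
    (μ := (volume : Measure (Fin N → E3))) (f := fun x : Fin N → E3 => eta δ (x i - y))
    (g := fun x => ‖ψ x‖ ^ 2) (v := Pi.single i (ek k)) ?_ ?_ ?_ ?_ ?_
  · simp_rw [etai_fderiv] at h1
    exact h1
  · simp_rw [etai_fderiv]
    exact integrable_mul_sq hψ.continuous hc hcd
  · exact (hce.mul (Dik_continuous hψ i k)).integrable_of_hasCompactSupport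
      (Dik_hcs hc i k).mul_left
  · exact integrable_mul_sq hψ.continuous hc hce
  · intro x _
    exact (etai_hasFDerivAt δ i y x).differentiableAt
  · intro x _
    exact ((normsq_contDiff hψ).differentiable one_ne_zero) x

theorem prod_int (hδ : 0 < δ) {f : E3 → ℝ} (hf : Continuous f) {B : ℝ} (hB : ∀ y, |f y| ≤ B)
    {D : (Fin N → E3) → ℝ} (hD : Continuous D) (hDi : Integrable D) (i : Fin N) :
    Integrable (fun p : (Fin N → E3) × E3 => f p.2 * eta δ (p.1 i - p.2) * D p.1)
      (volume.prod volume) := by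
  have hB0 : 0 ≤ B := (abs_nonneg _).trans (hB 0)
  have hm : AEStronglyMeasurable
      (fun p : (Fin N → E3) × E3 => f p.2 * eta δ (p.1 i - p.2) * D p.1)
      (volume.prod volume) := by
    refine Continuous.aestronglyMeasurable ?_
    exact ((hf.comp continuous_snd).mul ((eta_continuous δ).comp
      (((continuous_apply i).comp continuous_fst).sub continuous_snd))).mul
      (hD.comp continuous_fst)
  rw [integrable_prod_iff hm]
  refine ⟨Filter.Eventually.of_forall fun x => ?_, ?_⟩
  · simp only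
    exact (sm_integrable hδ hf hB (x i)).mul_const _
  · refine Integrable.mono' (hDi.norm.const_mul B) hm.norm.integral_prod_right'
      (Filter.Eventually.of_forall fun x => ?_)
    simp only
    rw [Real.norm_eq_abs, abs_of_nonneg (integral_nonneg fun _ => norm_nonneg _)]
    calc ∫ y, ‖f y * eta δ (x i - y) * D x‖ ≤ ∫ y, (B * ‖D x‖) * eta δ (x i - y) := by
          refine integral_mono ((sm_integrable hδ hf hB (x i)).mul_const _).norm
            ((eta_left_integrable hδ (x i)).const_mul _) fun y => ?_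
          simp only
          rw [norm_mul, norm_mul, Real.norm_eq_abs, Real.norm_eq_abs (eta δ (x i - y)),
            abs_of_pos (eta_pos hδ _)]
          calc |f y| * eta δ (x i - y) * ‖D x‖ ≤ B * eta δ (x i - y) * ‖D x‖ := by
                have := hB y
                have := (eta_pos hδ (x i - y)).le
                gcongr
            _ = _ := by ring
      _ = B * ‖D x‖ := by rw [integral_const_mul, eta_left_integral hδ, mul_one]

/-- Fubini -/
theorem fub (hδ : 0 < δ) {f : E3 → ℝ} (hf : Continuous f) {B : ℝ} (hB : ∀ y, |f y| ≤ B)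
    {D : (Fin N → E3) → ℝ} (hD : Continuous D) (hDi : Integrable D) (i : Fin N) :
    ∫ x, Sm δ f (x i) * D x = ∫ y, f y * ∫ x, eta δ (x i - y) * D x := by
  calc ∫ x, Sm δ f (x i) * D x = ∫ x : Fin N → E3, ∫ y, f y * eta δ (x i - y) * D x := by
        refine integral_congr_ae (Filter.Eventually.of_forall fun x => ?_)
        simp only [Sm]
        rw [integral_mul_const]
    _ = ∫ y, ∫ x : Fin N → E3, f y * eta δ (x i - y) * D x :=
        integral_integral_swap (prod_int hδ hf hB hD hDi i)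
    _ = _ := by
        refine integral_congr_ae (Filter.Eventually.of_forall fun y => ?_)
        simp only
        rw [← integral_const_mul]
        refine integral_congr_ae (Filter.Eventually.of_forall fun x => ?_)
        simp only
        ring

theorem fub_int (hδ : 0 < δ) {f : E3 → ℝ} (hf : Continuous f) {B : ℝ} (hB : ∀ y, |f y| ≤ B)
    {D : (Fin N → E3) → ℝ} (hD : Continuous D) (hDi : Integrable D) (i : Fin N) :
    Integrable (fun y => f y * ∫ x, eta δ (x i - y) * D x) := by
  have h := (prod_int hδ hf hB hD hDi i).integral_prod_right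
  refine h.congr (Filter.Eventually.of_forall fun y => ?_)
  simp only
  rw [← integral_const_mul]
  refine integral_congr_ae (Filter.Eventually.of_forall fun x => ?_)
  simp only
  ring

theorem fderiv_eta_bound (hδ : 0 < δ) (y : E3) (k : Fin 3) (t : E3) :
    |fderiv ℝ (eta δ) (t - y) (ek k)| ≤ Sr δ / δ := by
  have h1 := eta_abs_fderiv hδ (t - y) (ek k)
  rw [show ‖ek k‖ = 1 by simp [ek], mul_one] at h1
  exact h1.trans (div_le_div_of_nonneg_right (eta_le hδ _) hδ.le)

/-- sum over particles of the integrated kernel derivative -/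
theorem sum_fderiv (hδ : 0 < δ) (hN : 0 < N) (hψ : ContDiff ℝ 1 ψ) (hc : HasCompactSupport ψ)
    (hn : ∫ x, ‖ψ x‖ ^ 2 = 1) (k : Fin 3) (y : E3) :
    ∑ i, ∫ x, fderiv ℝ (eta δ) (x i - y) (ek k) * ‖ψ x‖ ^ 2 =
      - (N * fderiv ℝ (rho δ (nu ψ)) y (ek k)) := by
  have := nu_prob hN hψ.continuous hc hn
  have hm : Measurable (fun t : E3 => fderiv ℝ (eta δ) (t - y) (ek k)) :=
    (((eta_fderiv_continuous δ).comp (continuous_id.sub continuous_const)).clm_apply
      continuous_const).measurable
  rw [sum_eq_nu hN hψ.continuous hm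
    (integrable_bdd hψ.continuous hc hm (fderiv_eta_bound hδ y k)), rho_fderiv hδ (nu ψ),
    ← mul_neg, ← integral_neg]
  congr 1
  refine integral_congr_ae (Filter.Eventually.of_forall fun t => ?_)
  simp only
  rw [← eta_fderiv_neg, neg_sub]

/-- the main kinetic identity -/
theorem kin_main (hδ : 0 < δ) (hN : 0 < N) (hψ : ContDiff ℝ 1 ψ) (hc : HasCompactSupport ψ)
    (hn : ∫ x, ‖ψ x‖ ^ 2 = 1) :
    ∑ i, ∫ x, 2 * (∑ k : Fin 3, (Avec δ (nu ψ) (x i)) k *
        ((starRingEnd ℂ) (ψ x) * fderiv ℝ ψ x (Pi.single i (ek k))).re) =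
      N * (2 * Tkin δ (nu ψ)) := by
  have hp := nu_prob hN hψ.continuous hc hn
  have hR := nu_cpt hψ.continuous hc
  have hac := a0_continuous hδ (nu ψ) hR
  have hab := a0_abs_le hδ (nu ψ)
  have hAc : ∀ k, Continuous (Sm δ (a0 δ (nu ψ) k)) := fun k =>
    sm_continuous hδ (hac k) (hab k)
  have i1 : ∀ (i : Fin N) (k : Fin 3),
      Integrable (fun x : Fin N → E3 => Sm δ (a0 δ (nu ψ) k) (x i) * Dik ψ i k x) := fun i k =>
    (((hAc k).comp (continuous_apply i)).mul
      (Dik_continuous hψ i k)).integrable_of_hasCompactSupport (Dik_hcs hc i k).mul_left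
  have e1 : ∀ i : Fin N, ∫ x, 2 * (∑ k : Fin 3, (Avec δ (nu ψ) (x i)) k *
        ((starRingEnd ℂ) (ψ x) * fderiv ℝ ψ x (Pi.single i (ek k))).re) =
      ∑ k : Fin 3, ∫ y, a0 δ (nu ψ) k y * ∫ x, eta δ (x i - y) * Dik ψ i k x := by
    intro i
    calc _ = ∫ x, ∑ k : Fin 3, Sm δ (a0 δ (nu ψ) k) (x i) * Dik ψ i k x := by
          refine integral_congr_ae (Filter.Eventually.of_forall fun x => ?_)
          simp only
          rw [Finset.mul_sum]
          refine Finset.sum_congr rfl fun k _ => ?_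
          rw [Avec_apply, Dik_eq hψ]
          ring
      _ = ∑ k : Fin 3, ∫ x, Sm δ (a0 δ (nu ψ) k) (x i) * Dik ψ i k x :=
          integral_finsetSum _ fun k _ => i1 i k
      _ = _ := by
          refine Finset.sum_congr rfl fun k _ => ?_
          exact fub hδ (hac k) (hab k) (Dik_continuous hψ i k) (Dik_integrable hψ hc i k) i
  simp_rw [e1]
  rw [Finset.sum_comm]
  have i2 : ∀ (i : Fin N) (k : Fin 3),
      Integrable (fun y => a0 δ (nu ψ) k y * ∫ x, eta δ (x i - y) * Dik ψ i k x) := fun i k =>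
    fub_int hδ (hac k) (hab k) (Dik_continuous hψ i k) (Dik_integrable hψ hc i k) i
  have e2 : ∀ k : Fin 3, ∑ i : Fin N,
      ∫ y, a0 δ (nu ψ) k y * ∫ x, eta δ (x i - y) * Dik ψ i k x =
      ∫ y, N * (a0 δ (nu ψ) k y * fderiv ℝ (rho δ (nu ψ)) y (ek k)) := by
    intro k
    rw [← integral_finsetSum _ fun i _ => i2 i k]
    refine integral_congr_ae (Filter.Eventually.of_forall fun y => ?_)
    simp only
    rw [← Finset.mul_sum]
    simp_rw [ibp hψ hc]
    rw [Finset.sum_neg_distrib, sum_fderiv hδ hN hψ hc hn k y]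
    ring
  simp_rw [e2]
  have i3 : ∀ k : Fin 3,
      Integrable (fun y => N * (a0 δ (nu ψ) k y * fderiv ℝ (rho δ (nu ψ)) y (ek k))) := by
    intro k
    refine Integrable.const_mul ?_ _
    refine Integrable.mono' ((rho_integrable hδ (nu ψ)).const_mul (1 / (2 * δ) / δ)) ?_ ?_
    · exact ((hac k).mul ((rho_fderiv_continuous hδ (nu ψ) hR).clm_apply
        continuous_const)).aestronglyMeasurable
    · refine Filter.Eventually.of_forall fun y => ?_
      have h1 := hab k y
      have h2 := rho_abs_fderiv hδ (nu ψ) y (ek k)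
      rw [show ‖ek k‖ = 1 by simp [ek], mul_one] at h2
      rw [Real.norm_eq_abs, abs_mul]
      calc |a0 δ (nu ψ) k y| * |fderiv ℝ (rho δ (nu ψ)) y (ek k)|
          ≤ 1 / (2 * δ) * (rho δ (nu ψ) y / δ) :=
            mul_le_mul h1 h2 (abs_nonneg _) (by positivity)
        _ = _ := by ring
  rw [← integral_finsetSum _ fun k _ => i3 k]
  unfold Tkin
  rw [← integral_const_mul, ← integral_const_mul]
  refine integral_congr_ae (Filter.Eventually.of_forall fun y => ?_)
  simp only [a0, drho2]
  have hr := rho_pos hδ (nu ψ) y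
  rw [Finset.sum_div, Finset.mul_sum, Finset.mul_sum]
  refine Finset.sum_congr rfl fun k _ => ?_
  field_simp
  try ring

end Pool.Agent.Helper92.Bose
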