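import Mathlib
import Pool.Agent.Helper92.Bose.Kin

set_option autoImplicit false
open MeasureTheory
open scoped ENNReal

namespace Pool.Agent.Helper92.Bose

open Pool.Agent.Helper23.Bose

variable {N : ℕ} {ψ : (Fin N → E3) → ℂ} {Vext W : E3 → ℝ} {V : E3 × E3 → ℝ}

theorem pot_integrable (H : Hyp Vext W V) (hψ : Continuous ψ) (hc : HasCompactSupport ψ) :
    Integrable (fun x => (pot2 W N x + pot3 V N x) * ‖ψ x‖ ^ 2) := by
  obtain ⟨C2, hC2⟩ := pot2_bdd (N := N) H.wbd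
  obtain ⟨C3, hC3⟩ := pot3_bdd (N := N) H.Vbd
  exact integrable_bdd_mul_sq hψ hc ((measurable_pot2 H.wm).add (measurable_pot3 H.Vm))
      (fun x => add_nonneg (pot2_nonneg H.wnn x) (pot3_nonneg H.Vnn x)) (C := C2 + C3)
      (fun x => add_le_add (hC2 x) (hC3 x))

theorem QN_split (H : Hyp Vext W V) (hψ : ContDiff ℝ 1 ψ) (hc : HasCompactSupport ψ) :
    QN Vext W V N ψ = (∑ i, ∫ x, gradi ψ i x) + (∑ i, ∫ x, Vext (x i) * ‖ψ x‖ ^ 2) +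
      ∫ x, (pot2 W N x + pot3 V N x) * ‖ψ x‖ ^ 2 := by
  have i1 : ∀ i, Integrable (gradi ψ i) := fun i => integrable_gradi hψ hc i
  have i2 : ∀ i : Fin N, Integrable (fun x => Vext (x i) * ‖ψ x‖ ^ 2) := fun i =>
    integrable_ext H hψ.continuous hc i
  have i3 := pot_integrable (N := N) H hψ.continuous hc
  have j1 : Integrable (fun x => ∑ i, gradi ψ i x) := integrable_finsetSum _ fun i _ => i1 i
  have j2 : Integrable (fun x => ∑ i, Vext (x i) * ‖ψ x‖ ^ 2) :=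
    integrable_finsetSum _ fun i _ => i2 i
  have j12 : Integrable (fun x => (∑ i, gradi ψ i x) + ∑ i, Vext (x i) * ‖ψ x‖ ^ 2) := j1.add j2
  rw [← integral_finsetSum _ fun i _ => i1 i, ← integral_finsetSum _ fun i _ => i2 i,
    ← integral_add j1 j2, ← integral_add j12 i3]
  unfold QN
  refine integral_congr_ae (Filter.Eventually.of_forall fun x => ?_)
  simp only
  rw [Finset.sum_mul]
  ring

theorem vext_nonneg (H : Hyp Vext W V) (x : E3) : 0 ≤ Vext x := by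
  obtain ⟨C, α, hC, hα, h⟩ := H.vgrow
  exact le_trans (by positivity) (h x)

theorem Tkin_nonneg {δ : ℝ} (hδ : 0 < δ) (ν : Measure E3) [IsProbabilityMeasure ν] :
    0 ≤ Tkin δ ν := by
  unfold Tkin
  refine integral_nonneg fun y => ?_
  have := rho_pos hδ ν y
  have := drho2_nonneg δ ν y
  simp only [Pi.zero_apply]
  positivity

/-- the statement of the macroscopic lemma M3a -/
def MacStmt (Vext : E3 → ℝ) (b1 b2 : ℝ) : Prop :=
  ∀ (M0 eps : ℝ), 0 < eps →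
    ∃ δ : ℝ, 0 < δ ∧ δ ≤ 1 ∧ ∀ ν : Measure E3, Marg Vext M0 ν →
      eGP Vext b1 b2 - eps ≤ Tkin δ ν + Gint b1 b2 δ ν + ∫ x, Vext x ∂ν

/-- the key estimate: `PropLB` inequality rewritten through `ν` -/
theorem key_est (H : Hyp Vext W V) {δ : ℝ} (hδ : 0 < δ) (hN : 0 < N)
    (hψ : ContDiff ℝ 1 ψ) (hc : HasCompactSupport ψ) (hn : ∫ x, ‖ψ x‖ ^ 2 = 1)
    {ε : ℝ} (hε : 0 ≤ ε)
    (hLB : (∑ i, ∫ x, (2 * (∑ k : Fin 3, (Avec δ (nu ψ) (x i)) k *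
              ((starRingEnd ℂ) (ψ x) * fderiv ℝ ψ x (Pi.single i (ek k))).re)
              - ‖Avec δ (nu ψ) (x i)‖ ^ 2 * ‖ψ x‖ ^ 2))
            + (1 - ε) * (∑ i, ∫ x, lamf (bW W) (bM V) δ (nu ψ) (x i) * ‖ψ x‖ ^ 2)
            - N * (∫ x, gamf (bW W) (bM V) δ (nu ψ) x) - ε * N
          ≤ (∑ i, ∫ x, gradi ψ i x) + ∫ x, (pot2 W N x + pot3 V N x) * ‖ψ x‖ ^ 2) :
    N * (Tkin δ (nu ψ) + (1 - 3 * ε) * Gint (bW W) (bM V) δ (nu ψ)
      + (∫ x, Vext x ∂(nu ψ)) - ε) ≤ QN Vext W V N ψ := by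
  have hp := nu_prob hN hψ.continuous hc hn
  have hR := nu_cpt hψ.continuous hc
  have hb1 : 0 ≤ bW W := bW_nonneg H.wnn
  have hb2 : 0 ≤ bM V := bM_nonneg H.Vnn
  have hN' : (0 : ℝ) < N := by exact_mod_cast hN
  have hAc := Avec_continuous hδ (nu ψ) hR
  -- split the first sum
  have i1 : ∀ i : Fin N, Integrable (fun x => 2 * (∑ k : Fin 3, (Avec δ (nu ψ) (x i)) k *
      ((starRingEnd ℂ) (ψ x) * fderiv ℝ ψ x (Pi.single i (ek k))).re)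
      - ‖Avec δ (nu ψ) (x i)‖ ^ 2 * ‖ψ x‖ ^ 2) := fun i => integrable_J hψ hc hAc i
  have i2 : ∀ i : Fin N, Integrable (fun x => ‖Avec δ (nu ψ) (x i)‖ ^ 2 * ‖ψ x‖ ^ 2) := fun i =>
    integrable_mul_sq hψ.continuous hc ((hAc.comp (continuous_apply i)).norm.pow 2)
  have i3 : ∀ i : Fin N, Integrable (fun x => 2 * (∑ k : Fin 3, (Avec δ (nu ψ) (x i)) k *
      ((starRingEnd ℂ) (ψ x) * fderiv ℝ ψ x (Pi.single i (ek k))).re)) := fun i => by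
    refine ((i1 i).add (i2 i)).congr (Filter.Eventually.of_forall fun x => ?_)
    simp
  have e1 : (∑ i, ∫ x, (2 * (∑ k : Fin 3, (Avec δ (nu ψ) (x i)) k *
              ((starRingEnd ℂ) (ψ x) * fderiv ℝ ψ x (Pi.single i (ek k))).re)
              - ‖Avec δ (nu ψ) (x i)‖ ^ 2 * ‖ψ x‖ ^ 2)) =
      N * (2 * Tkin δ (nu ψ)) - N * ∫ t, ‖Avec δ (nu ψ) t‖ ^ 2 ∂(nu ψ) := by
    have h1 : ∀ i : Fin N, ∫ x, (2 * (∑ k : Fin 3, (Avec δ (nu ψ) (x i)) k *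
              ((starRingEnd ℂ) (ψ x) * fderiv ℝ ψ x (Pi.single i (ek k))).re)
              - ‖Avec δ (nu ψ) (x i)‖ ^ 2 * ‖ψ x‖ ^ 2) =
        (∫ x, 2 * (∑ k : Fin 3, (Avec δ (nu ψ) (x i)) k *
              ((starRingEnd ℂ) (ψ x) * fderiv ℝ ψ x (Pi.single i (ek k))).re)) -
        ∫ x, ‖Avec δ (nu ψ) (x i)‖ ^ 2 * ‖ψ x‖ ^ 2 := fun i => integral_sub (i3 i) (i2 i)
    simp_rw [h1]
    rw [Finset.sum_sub_distrib, kin_main hδ hN hψ hc hn,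
      ← sum_eq_nu (h := fun t => ‖Avec δ (nu ψ) t‖ ^ 2) hN hψ.continuous
        (hAc.norm.measurable.pow_const 2) i2]
  have e2 : ∑ i, ∫ x, lamf (bW W) (bM V) δ (nu ψ) (x i) * ‖ψ x‖ ^ 2 =
      N * ∫ t, lamf (bW W) (bM V) δ (nu ψ) t ∂(nu ψ) :=
    sum_eq_nu hN hψ.continuous (lamf_continuous hb1 hb2 hδ (nu ψ)).measurable fun i =>
      integrable_mul_sq hψ.continuous hc
        ((lamf_continuous hb1 hb2 hδ (nu ψ)).comp (continuous_apply i))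
  have e3 : ∑ i, ∫ x, Vext (x i) * ‖ψ x‖ ^ 2 = N * ∫ t, Vext t ∂(nu ψ) :=
    sum_eq_nu hN hψ.continuous H.vm fun i => integrable_ext H hψ.continuous hc i
  rw [QN_split H hψ hc, e3]
  rw [e1, e2] at hLB
  have h1 := Avec_sq_integral_le hδ (nu ψ) hR
  have h2 := lam_gam_combine hb1 hb2 hδ (nu ψ) hε
  have h3 : N * (Tkin δ (nu ψ) + (1 - 3 * ε) * Gint (bW W) (bM V) δ (nu ψ) - ε) ≤
      N * (2 * Tkin δ (nu ψ)) - N * ∫ t, ‖Avec δ (nu ψ) t‖ ^ 2 ∂(nu ψ)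
      + (1 - ε) * (N * ∫ t, lamf (bW W) (bM V) δ (nu ψ) t ∂(nu ψ))
      - N * (∫ x, gamf (bW W) (bM V) δ (nu ψ) x) - ε * N := by
    have h4 : N * (2 * Tkin δ (nu ψ)) - N * ∫ t, ‖Avec δ (nu ψ) t‖ ^ 2 ∂(nu ψ)
      + (1 - ε) * (N * ∫ t, lamf (bW W) (bM V) δ (nu ψ) t ∂(nu ψ))
      - N * (∫ x, gamf (bW W) (bM V) δ (nu ψ) x) - ε * N =
      N * ((2 * Tkin δ (nu ψ)) - (∫ t, ‖Avec δ (nu ψ) t‖ ^ 2 ∂(nu ψ))
        + ((1 - ε) * (∫ t, lamf (bW W) (bM V) δ (nu ψ) t ∂(nu ψ))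
          - (∫ x, gamf (bW W) (bM V) δ (nu ψ) x)) - ε) := by ring
    rw [h4]
    refine mul_le_mul_of_nonneg_left ?_ hN'.le
    linarith
  linarith

theorem lower_bound_of_mac (H : Hyp Vext W V) (hP : PropLB W V)
    (hmac : MacStmt Vext (bW W) (bM V)) {eps : ℝ} (heps : 0 < eps) :
    ∃ N0 : ℕ, ∀ N : ℕ, N0 ≤ N → ∀ ψ : (Fin N → E3) → ℂ, AdmN N ψ →
      N * (eGP Vext (bW W) (bM V) - eps) ≤ QN Vext W V N ψ := by
  set e := eGP Vext (bW W) (bM V) with he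
  have hb1 : 0 ≤ bW W := bW_nonneg H.wnn
  have hb2 : 0 ≤ bM V := bM_nonneg H.Vnn
  set M0 := |e| + 1 with hM0
  have hM0p : 0 < M0 := by positivity
  obtain ⟨δ, hδ, hδ1, hmacδ⟩ := hmac M0 (eps / 2) (by positivity)
  -- choice of ε
  set ε := min (1 / 3) (eps / (2 * (3 * |e| + 1))) with hε
  have hden : 0 < 2 * (3 * |e| + 1) := by positivity
  have hεp : 0 < ε := lt_min (by norm_num) (by positivity)
  have hε3 : 3 * ε ≤ 1 := by
    have : ε ≤ 1 / 3 := min_le_left _ _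
    linarith
  have hεe : ε * (3 * |e| + 1) ≤ eps / 2 := by
    have h1 : ε ≤ eps / (2 * (3 * |e| + 1)) := min_le_right _ _
    rw [le_div_iff₀ hden] at h1
    linarith
  obtain ⟨N0, hN0⟩ := hP ε hεp M0 (1 / δ) (Lam (bW W) (bM V) δ)
  refine ⟨max N0 1, fun N hN ψ hψ => ?_⟩
  have hNpos : 0 < N := lt_of_lt_of_le one_pos ((le_max_right _ _).trans hN)
  have hN' : (0 : ℝ) < N := by exact_mod_cast hNpos
  obtain ⟨hs, hc, hsym, hn⟩ := hψ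
  have hψ1 : ContDiff ℝ 1 ψ := hs.of_le (by simp [cinf])
  by_cases hbig : N * e ≤ QN Vext W V N ψ
  · refine le_trans ?_ hbig
    exact mul_le_mul_of_nonneg_left (by linarith) hN'.le
  push Not at hbig
  have hsplit := QN_split H hψ1 hc
  have p1 : 0 ≤ ∑ i, ∫ x, gradi ψ i x :=
    Finset.sum_nonneg fun i _ => integral_nonneg fun x => gradi_nonneg ψ i x
  have p2 : 0 ≤ ∑ i, ∫ x, Vext (x i) * ‖ψ x‖ ^ 2 :=
    Finset.sum_nonneg fun i _ => integral_nonneg fun x =>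
      mul_nonneg (vext_nonneg H _) (by positivity)
  have p3 : 0 ≤ ∫ x, (pot2 W N x + pot3 V N x) * ‖ψ x‖ ^ 2 := integral_nonneg fun x =>
    mul_nonneg (add_nonneg (pot2_nonneg H.wnn x) (pot3_nonneg H.Vnn x)) (by positivity)
  have hbd : N * e ≤ M0 * N := by
    have : e ≤ M0 := (le_abs_self e).trans (by linarith)
    nlinarith
  have hk : (∑ i, ∫ x, gradi ψ i x) ≤ M0 * N := by linarith
  have hv : (∑ i, ∫ x, Vext (x i) * ‖ψ x‖ ^ 2) ≤ M0 * N := by linarith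
  have hmarg := nu_marg H hNpos hψ1 hc hn hM0p hk hv
  have hp := hmarg.prob
  have hR := hmarg.cpt
  have hmacν := hmacδ (nu ψ) hmarg
  have hLB := hN0 N ((le_max_left _ _).trans hN) ψ ⟨hs, hc, hsym, hn⟩ hk
    (Avec δ (nu ψ)) (lamf (bW W) (bM V) δ (nu ψ)) (gamf (bW W) (bM V) δ (nu ψ))
    (Avec_continuous hδ (nu ψ) hR) (Avec_norm_le hδ (nu ψ) hR)
    (lamf_continuous hb1 hb2 hδ (nu ψ)) (gamf_continuous hb1 hb2 hδ (nu ψ))
    (lamf_nonneg hb1 hb2 hδ (nu ψ)) (lamf_le hb1 hb2 hδ (nu ψ))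
    (lamf_integrable (bW W) (bM V) hδ (nu ψ)) (lamf_integral_le hb1 hb2 hδ (nu ψ))
    (gamf_nonneg hb1 hb2 hδ (nu ψ)) (gamf_integrable (bW W) (bM V) hδ (nu ψ))
    (fun x t ht => lamf_gamf hb1 hb2 hδ (nu ψ) x t ht)
    (fun x y => lamf_harnack hb1 hb2 hδ (nu ψ) x y)
  have hkey := key_est H hδ hNpos hψ1 hc hn hεp.le hLB
  refine le_trans (mul_le_mul_of_nonneg_left ?_ hN'.le) hkey
  have hT := Tkin_nonneg hδ (nu ψ)
  have hVn : 0 ≤ ∫ x, Vext x ∂(nu ψ) := integral_nonneg fun x => vext_nonneg H x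
  have h1 : (1 - 3 * ε) * (e - eps / 2) ≤ (1 - 3 * ε) *
      (Tkin δ (nu ψ) + Gint (bW W) (bM V) δ (nu ψ) + ∫ x, Vext x ∂(nu ψ)) :=
    mul_le_mul_of_nonneg_left hmacν (by linarith)
  have h2 : 0 ≤ 3 * ε * Tkin δ (nu ψ) := by positivity
  have h3 : 0 ≤ 3 * ε * ∫ x, Vext x ∂(nu ψ) := by positivity
  have h4 : e ≤ |e| := le_abs_self e
  have h5 : 3 * ε * e ≤ 3 * ε * |e| := mul_le_mul_of_nonneg_left h4 (by positivity)
  have h6 : 0 ≤ 3 * ε * (eps / 2) := by positivity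
  nlinarith

end Pool.Agent.Helper92.Bose
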