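import Mathlib
import Pool.Agent.Helper92.Bose.Low
import Pool.Agent.Helper67.Bose.Mac

set_option autoImplicit false
open MeasureTheory

namespace Pool.Agent.Helper92.Bose

open Pool.Agent.Helper23.Bose

/-- M3: the macroscopic lower bound -/
theorem lower_bound_of {Vext W : E3 → ℝ} {V : E3 × E3 → ℝ} (H : Hyp Vext W V)
    (h : PropLB W V) {eps : ℝ} (heps : 0 < eps) :
    ∃ N0 : ℕ, ∀ N : ℕ, N0 ≤ N → ∀ ψ : (Fin N → E3) → ℂ, AdmN N ψ →
      N * (eGP Vext (bW W) (bM V) - eps) ≤ QN Vext W V N ψ :=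
  lower_bound_of_mac H h (fun M0 _ he => Pool.Agent.Helper67.Mac.mac H (bW_nonneg H.wnn)
    (bM_nonneg H.Vnn) M0 he) heps

theorem lower_bound_final {Vext W : E3 → ℝ} {V : E3 × E3 → ℝ} (H : Hyp Vext W V)
    {eps : ℝ} (heps : 0 < eps) :
    ∃ N0 : ℕ, ∀ N : ℕ, N0 ≤ N → ∀ ψ : (Fin N → E3) → ℂ, AdmN N ψ →
      N * (eGP Vext (bW W) (bM V) - eps) ≤ QN Vext W V N ψ :=
  lower_bound_of H (prop_LB H) heps

end Pool.Agent.Helper92.Bose
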